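import Pool.Agent.Lib.MP_570bef_ntV.OF.Defs

/-!
# Job OF/UuA: the shift modulus u = uu E q s

u = prod_{p | E} p^(a_p), a_p = max 1 ceil(j_p/(s+1)), j_p = q.factorization p (nat division: (j+s)/(s+1) = ceil(j/(s+1))).
* uu_dvd: a_p ≥ 1 and E = prod_{p | E} p (E squarefree: `Nat.prod_primeFactors_of_squarefree`), `Finset.prod_dvd_prod_of_dvd`.
* cop_shift: E | u, so (y + u z, E) = (y, E) (`Nat.coprime_add_mul_left_left` ...).
* dvd_uu_pow: q = prod_{p | E} p^(j_p) (all primes of q divide E since q | E^k; `Nat.prod_factorization_pow_eq_self`,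
  `Finsupp.prod_of_support_subset`), u^(s+1) = prod p^(a_p (s+1)), and a_p (s+1) ≥ j_p.
* uu_le: a_p ≤ 1 + j_p/(s+1) (real), so u ≤ prod p * prod p^(j_p/(s+1)) = E * q^(1/(s+1)) (`Real.finset_prod_rpow` and casts).
-/

set_option autoImplicit false

open Finset Real
open Pool.Agent.Lib.MP_2a816b_nt (e nn D norm_e e_add e_int e_nat e_add_int e_zero norm_D_mul_nn)

namespace Pool.Agent.Lib.MP_570bef_ntV.OF

private theorem UuA_exp (j s : ℕ) : j ≤ max 1 ((j + s) / (s + 1)) * (s + 1) := by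
  have h1 : (j + s) / (s + 1) ≤ max 1 ((j + s) / (s + 1)) := le_max_right _ _
  have h2 := Nat.div_add_mod (j + s) (s + 1)
  have h3 : (j + s) % (s + 1) < s + 1 := Nat.mod_lt _ (by omega)
  have h4 : j ≤ (s + 1) * ((j + s) / (s + 1)) := by omega
  calc j ≤ (s + 1) * ((j + s) / (s + 1)) := h4
    _ = ((j + s) / (s + 1)) * (s + 1) := Nat.mul_comm _ _
    _ ≤ _ := Nat.mul_le_mul_right _ h1

private theorem UuA_prod (k E q : ℕ) (hA : Adm k E) (hq : q ∣ E ^ k) :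
    q = ∏ p ∈ E.primeFactors, p ^ (q.factorization p) := by
  have hq0 : q ≠ 0 := (hA.pos_of_dvd hq).ne'
  have h1 := Nat.prod_factorization_pow_eq_self hq0
  conv_lhs => rw [← h1]
  rw [Finsupp.prod]
  refine Finset.prod_subset ?_ ?_
  · intro p hp
    rw [Nat.support_factorization, Nat.mem_primeFactors] at hp
    rw [Nat.mem_primeFactors]
    exact ⟨hp.1, prime_dvd_of hp.1 hq hp.2.1, hA.pos.ne'⟩
  · intro p _ hp
    rw [Finsupp.notMem_support_iff] at hp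
    rw [hp, pow_zero]

private theorem UuA_real (p j s : ℕ) (hp : 1 ≤ p) :
    ((p ^ max 1 ((j + s) / (s + 1)) : ℕ) : ℝ) ≤
      (p : ℝ) * (((p ^ j : ℕ) : ℝ)) ^ (1 / ((s : ℝ) + 1)) := by
  have hp1 : (1 : ℝ) ≤ (p : ℝ) := by exact_mod_cast hp
  have hp0 : (0 : ℝ) < (p : ℝ) := by linarith
  have hs : (0 : ℝ) < (s : ℝ) + 1 := by positivity
  have ha : ((max 1 ((j + s) / (s + 1)) : ℕ) : ℝ) ≤ 1 + (j : ℝ) * (1 / ((s : ℝ) + 1)) := by
    have h0 : (0 : ℝ) ≤ (j : ℝ) * (1 / ((s : ℝ) + 1)) := by positivity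
    have h1 : (((j + s) / (s + 1) : ℕ) : ℝ) ≤ ((j + s : ℕ) : ℝ) / ((s + 1 : ℕ) : ℝ) :=
      Nat.cast_div_le
    have h2 : ((j + s : ℕ) : ℝ) / ((s + 1 : ℕ) : ℝ) ≤ 1 + (j : ℝ) * (1 / ((s : ℝ) + 1)) := by
      push_cast
      rw [div_le_iff₀ hs]
      have h3 : (1 + (j : ℝ) * (1 / ((s : ℝ) + 1))) * ((s : ℝ) + 1) = (s : ℝ) + 1 + j := by
        field_simp
      rw [h3]
      linarith
    rcases le_total 1 ((j + s) / (s + 1)) with h | h
    · rw [max_eq_right h]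
      exact h1.trans h2
    · rw [max_eq_left h]
      push_cast
      linarith
  push_cast
  have e1 : ((p : ℝ) ^ j) ^ (1 / ((s : ℝ) + 1)) = (p : ℝ) ^ ((j : ℝ) * (1 / ((s : ℝ) + 1))) := by
    rw [← Real.rpow_natCast (p : ℝ) j, ← Real.rpow_mul hp0.le]
  rw [e1]
  have e2 : (p : ℝ) * (p : ℝ) ^ ((j : ℝ) * (1 / ((s : ℝ) + 1))) =
      (p : ℝ) ^ (1 + (j : ℝ) * (1 / ((s : ℝ) + 1))) := by
    rw [Real.rpow_add hp0, Real.rpow_one]
  rw [e2, ← Real.rpow_natCast (p : ℝ) (max 1 ((j + s) / (s + 1)))]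
  exact Real.rpow_le_rpow_of_exponent_le hp1 ha

theorem uu_pos (E q s : ℕ) : 0 < uu E q s := by
  unfold uu
  refine Finset.prod_pos ?_
  intro p hp
  exact pow_pos (Nat.prime_of_mem_primeFactors hp).pos _

theorem uu_dvd (E q s : ℕ) (hE : Squarefree E) : E ∣ uu E q s := by
  conv_lhs => rw [← Nat.prod_primeFactors_of_squarefree hE]
  unfold uu
  refine Finset.prod_dvd_prod_of_dvd _ _ ?_
  intro p _
  refine dvd_pow_self p ?_
  have : 1 ≤ max 1 ((q.factorization p + s) / (s + 1)) := le_max_left _ _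
  omega

theorem cop_shift (E q s y z : ℕ) (hE : Squarefree E) :
    Nat.Coprime (y + uu E q s * z) E ↔ Nat.Coprime y E := by
  obtain ⟨c, hc⟩ := uu_dvd E q s hE
  rw [hc, Nat.mul_assoc]
  exact Nat.coprime_add_mul_left_left y E (c * z)

theorem dvd_uu_pow (k E q s : ℕ) (hA : Adm k E) (hq : q ∣ E ^ k) : q ∣ uu E q s ^ (s + 1) := by
  conv_lhs => rw [UuA_prod k E q hA hq]
  unfold uu
  rw [← Finset.prod_pow]
  refine Finset.prod_dvd_prod_of_dvd _ _ ?_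
  intro p _
  rw [← pow_mul]
  exact pow_dvd_pow p (UuA_exp _ s)

theorem uu_le (k E q s : ℕ) (hA : Adm k E) (hq : q ∣ E ^ k) :
    (uu E q s : ℝ) ≤ E * (q : ℝ) ^ (1 / ((s : ℝ) + 1)) := by
  have h1 : (uu E q s : ℝ) ≤ ∏ p ∈ E.primeFactors,
      ((p : ℝ) * (((p ^ (q.factorization p) : ℕ) : ℝ)) ^ (1 / ((s : ℝ) + 1))) := by
    unfold uu
    rw [Nat.cast_prod]
    refine Finset.prod_le_prod ?_ ?_
    · intro p _
      positivity
    · intro p hp
      exact UuA_real p _ s (Nat.prime_of_mem_primeFactors hp).pos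
  refine h1.trans (le_of_eq ?_)
  rw [Finset.prod_mul_distrib]
  have h2 : ∏ p ∈ E.primeFactors, (p : ℝ) = (E : ℝ) := by
    have := Nat.prod_primeFactors_of_squarefree hA.sqf
    conv_rhs => rw [← this]
    rw [Nat.cast_prod]
  have h3 : ∏ p ∈ E.primeFactors, (((p ^ (q.factorization p) : ℕ) : ℝ)) ^ (1 / ((s : ℝ) + 1)) =
      (q : ℝ) ^ (1 / ((s : ℝ) + 1)) := by
    rw [Real.finsetProd_rpow _ _ (fun i _ => by positivity)]
    congr 1
    rw [← Nat.cast_prod, ← UuA_prod k E q hA hq]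
  rw [h2, h3]

end Pool.Agent.Lib.MP_570bef_ntV.OF
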