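import Pool.Agent.Lib.MP_570bef_ntV.OF.Defs

/-!
# Job OF/UuB: the reduced denominator qd E q s

With j_p = q.factorization p, a_p = max 1 ((j_p + s)/(s+1)):
* qd_eq: q = prod_{p | E} p^(j_p) (primes of q divide E), u^s = prod p^(s a_p), gcd = prod p^(min (j_p) (s a_p)),
  so qd = prod p^(j_p - s a_p) (truncated subtraction). (Via `Nat.factorization_gcd`, `Nat.eq_of_factorization_eq`,
  or show q = (prod p^(j - s a)) * (prod p^(min j (s a))) and that the second factor is the gcd.)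
* qd_le: j - s a ≤ j/(s+1) since a ≥ j/(s+1) (and 0 ≤ j/(s+1)): qd ≤ prod p^(j/(s+1)) = q^(1/(s+1)).
* qd_ge: j/(s+1) ≤ (j - s a)_+ + s, because a ≤ 1 + j/(s+1) (if a = 1 and j ≤ s trivial: j/(s+1) ≤ s):
  q^(1/(s+1)) ≤ qd * prod p^s = qd * E^s (E = prod p).
-/

set_option autoImplicit false

open Finset Real
open Pool.Agent.Lib.MP_2a816b_nt (e nn D norm_e e_add e_int e_nat e_add_int e_zero norm_D_mul_nn)

namespace Pool.Agent.Lib.MP_570bef_ntV.OF

private theorem UuB_q_prod (k E q : ℕ) (hA : Adm k E) (hq : q ∣ E ^ k) :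
    ∏ p ∈ E.primeFactors, p ^ q.factorization p = q := by
  have hq0 : q ≠ 0 := (hA.pos_of_dvd hq).ne'
  have hsub : q.primeFactors ⊆ E.primeFactors := by
    intro p hp
    have hpp := Nat.prime_of_mem_primeFactors hp
    have hpq := Nat.dvd_of_mem_primeFactors hp
    exact Nat.mem_primeFactors.2 ⟨hpp, prime_dvd_of hpp hq hpq, hA.pos.ne'⟩
  have h1 : ∏ p ∈ q.primeFactors, p ^ q.factorization p = q := by
    have h2 := Nat.prod_factorization_pow_eq_self hq0
    exact h2
  rw [← h1]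
  conv_rhs => rw [← h1]
  symm
  have h3 : ∀ p ∈ E.primeFactors, p ∉ q.primeFactors → p ^ (∏ p ∈ q.primeFactors, p ^ q.factorization p).factorization p = 1 := by
    intro p _ hp
    rw [h1]
    have h4 : q.factorization p = 0 := by
      rw [← Finsupp.notMem_support_iff, Nat.support_factorization]
      exact hp
    rw [h4, pow_zero]
  rw [← Finset.prod_subset hsub h3]
  rw [h1]

private theorem UuB_E_prod (k E : ℕ) (hA : Adm k E) : ∏ p ∈ E.primeFactors, p = E :=
  Nat.prod_primeFactors_of_squarefree hA.sqf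

private theorem UuB_cop (P : Finset ℕ) (hP : ∀ p ∈ P, p.Prime) (f g : ℕ → ℕ) (h : ∀ p, f p = 0 ∨ g p = 0) :
    Nat.Coprime (∏ p ∈ P, p ^ f p) (∏ p ∈ P, p ^ g p) := by
  apply Nat.Coprime.prod_left
  intro p hp
  apply Nat.Coprime.prod_right
  intro r hr
  by_cases hpr : p = r
  · subst hpr
    rcases h p with h1 | h1
    · rw [h1, pow_zero]
      exact Nat.coprime_one_left _
    · rw [h1, pow_zero]
      exact Nat.coprime_one_right _
  · exact Nat.Coprime.pow _ _ ((Nat.coprime_primes (hP p hp) (hP r hr)).2 hpr)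

private theorem UuB_a_ge (j s : ℕ) : j ≤ (s + 1) * max 1 ((j + s) / (s + 1)) := by
  have h1 : j + s < (s + 1) * ((j + s) / (s + 1) + 1) := by
    exact Nat.lt_mul_div_succ _ (Nat.succ_pos s)
  have h2 : (s + 1) * ((j + s) / (s + 1)) ≤ (s + 1) * max 1 ((j + s) / (s + 1)) :=
    Nat.mul_le_mul_left _ (le_max_right _ _)
  rw [Nat.mul_add] at h1
  omega

private theorem UuB_exp_le (j s : ℕ) : (s + 1) * (j - s * max 1 ((j + s) / (s + 1))) ≤ j := by
  have h := UuB_a_ge j s
  generalize max 1 ((j + s) / (s + 1)) = a at h ⊢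
  by_cases h1 : j ≤ s * a
  · rw [Nat.sub_eq_zero_of_le h1]
    simp
  · push Not at h1
    obtain ⟨d, hd⟩ := Nat.exists_eq_add_of_lt h1
    have h2 : j - s * a = d + 1 := by omega
    rw [h2]
    nlinarith

private theorem UuB_exp_ge (j s : ℕ) : j ≤ (s + 1) * ((j - s * max 1 ((j + s) / (s + 1))) + s) := by
  rcases Nat.eq_zero_or_pos j with h0 | h0
  · subst h0
    exact Nat.zero_le _
  have h1 : 1 ≤ (j + s) / (s + 1) := by
    rw [Nat.le_div_iff_mul_le (Nat.succ_pos s)]
    omega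
  rw [max_eq_right h1]
  have h2 : (s + 1) * ((j + s) / (s + 1)) ≤ j + s := Nat.mul_div_le _ _
  generalize (j + s) / (s + 1) = a at h1 h2 ⊢
  by_cases h3 : j ≤ s * a
  · rw [Nat.sub_eq_zero_of_le h3, Nat.zero_add]
    nlinarith
  · push Not at h3
    obtain ⟨d, hd⟩ := Nat.exists_eq_add_of_lt h3
    have h4 : j - s * a = d + 1 := by omega
    rw [h4]
    nlinarith

private theorem UuB_rpow (k E q s : ℕ) (hA : Adm k E) (hq : q ∣ E ^ k) :
    ∏ p ∈ E.primeFactors, (p : ℝ) ^ ((q.factorization p : ℝ) * (1 / ((s : ℝ) + 1))) = (q : ℝ) ^ (1 / ((s : ℝ) + 1)) := by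
  have h1 : (q : ℝ) = ∏ p ∈ E.primeFactors, (p : ℝ) ^ (q.factorization p) := by
    conv_lhs => rw [← UuB_q_prod k E q hA hq]
    push_cast
    rfl
  have h2 : ∀ p ∈ E.primeFactors, (0 : ℝ) ≤ (p : ℝ) ^ (q.factorization p) := fun p _ => by positivity
  have h3 : (q : ℝ) ^ (1 / ((s : ℝ) + 1)) = ∏ p ∈ E.primeFactors, ((p : ℝ) ^ (q.factorization p)) ^ (1 / ((s : ℝ) + 1)) := by
    rw [Real.finsetProd_rpow _ _ h2, ← h1]
  rw [h3]
  refine Finset.prod_congr rfl fun p hp => ?_
  rw [Real.rpow_mul (Nat.cast_nonneg p), Real.rpow_natCast]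

theorem qd_eq (k E q s : ℕ) (hA : Adm k E) (hq : q ∣ E ^ k) :
    qd E q s = ∏ p ∈ E.primeFactors,
      p ^ (q.factorization p - s * max 1 ((q.factorization p + s) / (s + 1))) := by
  have hP : ∀ p ∈ E.primeFactors, p.Prime := fun p hp => Nat.prime_of_mem_primeFactors hp
  have hu : uu E q s ^ s = ∏ p ∈ E.primeFactors, p ^ (s * max 1 ((q.factorization p + s) / (s + 1))) := by
    unfold uu
    rw [← Finset.prod_pow]
    refine Finset.prod_congr rfl fun p _ => ?_
    rw [← pow_mul, Nat.mul_comm]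
  have hqp := UuB_q_prod k E q hA hq
  have h1 : q = (∏ p ∈ E.primeFactors, p ^ min (q.factorization p) (s * max 1 ((q.factorization p + s) / (s + 1)))) *
      ∏ p ∈ E.primeFactors, p ^ (q.factorization p - s * max 1 ((q.factorization p + s) / (s + 1))) := by
    rw [← Finset.prod_mul_distrib]
    conv_lhs => rw [← hqp]
    refine Finset.prod_congr rfl fun p _ => ?_
    rw [← pow_add]
    congr 1
    omega
  have h2 : uu E q s ^ s = (∏ p ∈ E.primeFactors, p ^ min (q.factorization p) (s * max 1 ((q.factorization p + s) / (s + 1)))) *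
      ∏ p ∈ E.primeFactors, p ^ (s * max 1 ((q.factorization p + s) / (s + 1)) - q.factorization p) := by
    rw [hu, ← Finset.prod_mul_distrib]
    refine Finset.prod_congr rfl fun p _ => ?_
    rw [← pow_add]
    congr 1
    omega
  have h3 : Nat.gcd q (uu E q s ^ s) = ∏ p ∈ E.primeFactors, p ^ min (q.factorization p) (s * max 1 ((q.factorization p + s) / (s + 1))) := by
    have hc := UuB_cop E.primeFactors hP (fun p => q.factorization p - s * max 1 ((q.factorization p + s) / (s + 1)))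
      (fun p => s * max 1 ((q.factorization p + s) / (s + 1)) - q.factorization p) (fun p => by
        show _ - _ = 0 ∨ _ - _ = 0
        omega)
    have h4 : Nat.gcd q (uu E q s ^ s) = Nat.gcd ((∏ p ∈ E.primeFactors, p ^ min (q.factorization p) (s * max 1 ((q.factorization p + s) / (s + 1)))) *
      ∏ p ∈ E.primeFactors, p ^ (q.factorization p - s * max 1 ((q.factorization p + s) / (s + 1))))
      ((∏ p ∈ E.primeFactors, p ^ min (q.factorization p) (s * max 1 ((q.factorization p + s) / (s + 1)))) *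
      ∏ p ∈ E.primeFactors, p ^ (s * max 1 ((q.factorization p + s) / (s + 1)) - q.factorization p)) := by
      rw [← h1, ← h2]
    rw [h4, Nat.gcd_mul_left, Nat.Coprime.gcd_eq_one hc, Nat.mul_one]
  have hpos : 0 < ∏ p ∈ E.primeFactors, p ^ min (q.factorization p) (s * max 1 ((q.factorization p + s) / (s + 1))) :=
    Finset.prod_pos fun p hp => pow_pos (hP p hp).pos _
  unfold qd
  rw [h3]
  exact Nat.div_eq_of_eq_mul_right hpos h1

theorem qd_le (k E q s : ℕ) (hA : Adm k E) (hq : q ∣ E ^ k) :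
    (qd E q s : ℝ) ≤ (q : ℝ) ^ (1 / ((s : ℝ) + 1)) := by
  rw [qd_eq k E q s hA hq, ← UuB_rpow k E q s hA hq]
  push_cast
  refine Finset.prod_le_prod (fun p _ => by positivity) fun p hp => ?_
  have hp1 : (1 : ℝ) ≤ (p : ℝ) := by
    exact_mod_cast (Nat.prime_of_mem_primeFactors hp).one_lt.le
  rw [← Real.rpow_natCast]
  refine Real.rpow_le_rpow_of_exponent_le hp1 ?_
  have h1 := UuB_exp_le (q.factorization p) s
  have h2 : ((s : ℝ) + 1) * ((q.factorization p - s * max 1 ((q.factorization p + s) / (s + 1)) : ℕ) : ℝ) ≤ (q.factorization p : ℝ) := by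
    exact_mod_cast h1
  have hs : (0 : ℝ) < (s : ℝ) + 1 := by positivity
  rw [mul_one_div, le_div_iff₀ hs, mul_comm]
  exact h2

theorem qd_ge (k E q s : ℕ) (hs : 1 ≤ s) (hA : Adm k E) (hq : q ∣ E ^ k) :
    (q : ℝ) ^ (1 / ((s : ℝ) + 1)) ≤ (qd E q s : ℝ) * (E : ℝ) ^ s := by
  have hE : (E : ℝ) ^ s = ∏ p ∈ E.primeFactors, (p : ℝ) ^ s := by
    rw [Finset.prod_pow]
    conv_lhs => rw [← UuB_E_prod k E hA]
    push_cast
    rfl
  rw [hE, qd_eq k E q s hA hq, ← UuB_rpow k E q s hA hq]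
  push_cast
  rw [← Finset.prod_mul_distrib]
  refine Finset.prod_le_prod (fun p _ => by positivity) fun p hp => ?_
  have hp1 : (1 : ℝ) ≤ (p : ℝ) := by
    exact_mod_cast (Nat.prime_of_mem_primeFactors hp).one_lt.le
  rw [← pow_add, ← Real.rpow_natCast]
  refine Real.rpow_le_rpow_of_exponent_le hp1 ?_
  have h1 := UuB_exp_ge (q.factorization p) s
  have h2 : (q.factorization p : ℝ) ≤ ((s : ℝ) + 1) * (((q.factorization p - s * max 1 ((q.factorization p + s) / (s + 1)) + s : ℕ)) : ℝ) := by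
    exact_mod_cast h1
  have hs' : (0 : ℝ) < (s : ℝ) + 1 := by positivity
  rw [mul_one_div, div_le_iff₀ hs', mul_comm]
  exact h2

end Pool.Agent.Lib.MP_570bef_ntV.OF
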