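import Pool.Agent.Lib.MP_570bef_ntV.OF.Defs
import Pool.Agent.Lib.MP_570bef_ntV.OF.UuA
import Pool.Agent.Lib.MP_570bef_ntV.OF.UuB

/-!
# Job OF/UuC: numerator and denominator of u^s/q

g = gcd(q, u^s), qd = q/g, ww = u^s/g.
* qd_pos: q > 0. * qd_primes: qd | q | E^k.
* frac: u^s/q = ww/qd (divide by g > 0; casts of exact divisions).
* ww_coprime: `Nat.coprime_div_gcd_div_gcd`.
* s = 1: one_lt_qd: q not squarefree, so some p has j_p ≥ 2 (`Nat.squarefree_iff_factorization_le_one`), p | E, and in `qd_eq` the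
  exponent j - max 1 ((j+1)/2) = j - (j+1)/2 = j/2 ≥ 1, so p | qd (all factors positive).
* qd_dvd_uu: exponentwise j - max 1 ((j+1)/2) ≤ max 1 ((j+1)/2).
-/

set_option autoImplicit false

open Finset Real
open Pool.Agent.Lib.MP_2a816b_nt (e nn D norm_e e_add e_int e_nat e_add_int e_zero norm_D_mul_nn)

namespace Pool.Agent.Lib.MP_570bef_ntV.OF

private theorem UuC_g_pos (k E q s : ℕ) (hA : Adm k E) (hq : q ∣ E ^ k) : 0 < Nat.gcd q (uu E q s ^ s) :=
  Nat.gcd_pos_of_pos_left _ (hA.pos_of_dvd hq)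

theorem qd_pos (k E q s : ℕ) (hA : Adm k E) (hq : q ∣ E ^ k) : 0 < qd E q s := by
  unfold qd
  exact Nat.div_pos (Nat.le_of_dvd (hA.pos_of_dvd hq) (Nat.gcd_dvd_left _ _)) (UuC_g_pos k E q s hA hq)

theorem qd_dvd (E q s : ℕ) : qd E q s ∣ q := by
  unfold qd
  exact Nat.div_dvd_of_dvd (Nat.gcd_dvd_left _ _)

theorem qd_primes (k E q s : ℕ) (hq : q ∣ E ^ k) :
    ∀ p : ℕ, p.Prime → p ∣ qd E q s → p ∣ E := by
  intro p hp h
  exact prime_dvd_of hp hq (h.trans (qd_dvd E q s))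

theorem frac (k E q s : ℕ) (hA : Adm k E) (hq : q ∣ E ^ k) :
    (uu E q s : ℝ) ^ s / q = (ww E q s : ℝ) / qd E q s := by
  have hg := UuC_g_pos k E q s hA hq
  have hq0 := hA.pos_of_dvd hq
  have hd := qd_pos k E q s hA hq
  have h1 : q = Nat.gcd q (uu E q s ^ s) * qd E q s := by
    unfold qd
    exact (Nat.mul_div_cancel' (Nat.gcd_dvd_left _ _)).symm
  have h2 : uu E q s ^ s = Nat.gcd q (uu E q s ^ s) * ww E q s := by
    unfold ww
    exact (Nat.mul_div_cancel' (Nat.gcd_dvd_right _ _)).symm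
  generalize Nat.gcd q (uu E q s ^ s) = g at hg h1 h2
  have h3 : (q : ℝ) = (g : ℝ) * (qd E q s : ℝ) := by exact_mod_cast h1
  have h4 : (uu E q s : ℝ) ^ s = (g : ℝ) * (ww E q s : ℝ) := by exact_mod_cast h2
  have hg' : (g : ℝ) ≠ 0 := by exact_mod_cast hg.ne'
  rw [h3, h4]
  exact mul_div_mul_left _ _ hg'

theorem ww_coprime (k E q s : ℕ) (hA : Adm k E) (hq : q ∣ E ^ k) :
    Nat.Coprime (ww E q s) (qd E q s) := by
  have h := Nat.coprime_div_gcd_div_gcd (UuC_g_pos k E q s hA hq)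
  exact h.symm

theorem one_lt_qd (k E q : ℕ) (hA : Adm k E) (hq : q ∣ E ^ k) (hns : ¬ Squarefree q) :
    1 < qd E q 1 := by
  have hq0 : q ≠ 0 := (hA.pos_of_dvd hq).ne'
  rw [Nat.squarefree_iff_factorization_le_one hq0] at hns
  push Not at hns
  obtain ⟨p, hp⟩ := hns
  have hpp : p.Prime := by
    by_contra h
    rw [Nat.factorization_eq_zero_of_not_prime _ h] at hp
    omega
  have hpq : p ∣ q := by
    by_contra h
    rw [Nat.factorization_eq_zero_of_not_dvd h] at hp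
    omega
  have hpE : p ∈ E.primeFactors := Nat.mem_primeFactors.2 ⟨hpp, prime_dvd_of hpp hq hpq, hA.pos.ne'⟩
  have h1 : p ∣ qd E q 1 := by
    rw [qd_eq k E q 1 hA hq]
    refine Dvd.dvd.trans ?_ (Finset.dvd_prod_of_mem _ hpE)
    refine dvd_pow_self p ?_
    have h2 : max 1 ((q.factorization p + 1) / (1 + 1)) = (q.factorization p + 1) / 2 := by
      rw [max_eq_right]
      omega
    rw [h2]
    omega
  have h2 := Nat.le_of_dvd (qd_pos k E q 1 hA hq) h1
  have := hpp.one_lt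
  omega

theorem qd_dvd_uu (k E q : ℕ) (hA : Adm k E) (hq : q ∣ E ^ k) : qd E q 1 ∣ uu E q 1 := by
  rw [qd_eq k E q 1 hA hq]
  unfold uu
  refine Finset.prod_dvd_prod_of_dvd _ _ fun p _ => ?_
  refine pow_dvd_pow p ?_
  have h1 : (q.factorization p + 1) / (1 + 1) ≤ max 1 ((q.factorization p + 1) / (1 + 1)) := le_max_right _ _
  omega

end Pool.Agent.Lib.MP_570bef_ntV.OF
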