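import Pool.Agent.Lib.MP_570bef_ntV.OF.Defs
import Pool.Agent.Lib.MP_570bef_ntV.OF.UuA
import Pool.Agent.Lib.MP_570bef_ntV.OF.UuC

/-!
# Job OF/Bn: binomial expansion of the phase

* expand: (y + u z)^k = sum_{i ≤ k} C(k,i) y^(k-i) u^i z^i (`add_pow`); for i ≥ s+1, q | u^(s+1) | u^i, so the term times n/q is
  an integer: e(x + integer) = e(x) (`e_add_int`). Terms with i > k have C(k,i) = 0, so range (s+1) may exceed k.
* expand_top: u = uu E q s, q | u^(s+1) (`dvd_uu_pow`); split off i = s of `expand` (`Finset.sum_range_succ`); its coefficient is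
  n C(k,s) y^(k-s) u^s/q = n C(k,s) y^(k-s) ww/qd by `frac`; a j := n C(k,j) y^(k-j) u^j/q.
* top_coprime: n, C(k,s), y, ww are prime to qd (`Adm.coprime_choose`, `coprime_of_primes`, `ww_coprime`; n prime to q and qd | q).
-/

set_option autoImplicit false

open Finset Real
open Pool.Agent.Lib.MP_2a816b_nt (e nn D norm_e e_add e_int e_nat e_add_int e_zero norm_D_mul_nn)

namespace Pool.Agent.Lib.MP_570bef_ntV.OF

private theorem Bn_int (k s : ℕ) (n : ℤ) (q u y z : ℕ) (hq : 0 < q) (hqu : q ∣ u ^ (s + 1))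
    (m : ℕ) (hm : s + 1 ≤ m) :
    ∃ w : ℤ, ((n : ℝ) * (k.choose m) * (y : ℝ) ^ (k - m) * (u : ℝ) ^ m / q) * (z : ℝ) ^ m = w := by
  have h1 : q ∣ u ^ m := hqu.trans (pow_dvd_pow u hm)
  obtain ⟨v, hv⟩ := h1
  refine ⟨n * (k.choose m : ℤ) * (y : ℤ) ^ (k - m) * v * (z : ℤ) ^ m, ?_⟩
  have hq' : (q : ℝ) ≠ 0 := by exact_mod_cast hq.ne'
  have hv' : (u : ℝ) ^ m = q * v := by exact_mod_cast hv
  rw [hv']
  push_cast
  field_simp

theorem expand (k s : ℕ) (n : ℤ) (q u y z : ℕ) (hq : 0 < q) (hqu : q ∣ u ^ (s + 1)) :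
    e ((n : ℝ) * ((y + u * z : ℕ) : ℝ) ^ k / q) =
      e (∑ i ∈ range (s + 1),
        ((n : ℝ) * (k.choose i) * (y : ℝ) ^ (k - i) * (u : ℝ) ^ i / q) * (z : ℝ) ^ i) := by
  set T : ℕ → ℝ := fun i =>
    ((n : ℝ) * (k.choose i) * (y : ℝ) ^ (k - i) * (u : ℝ) ^ i / q) * (z : ℝ) ^ i with hT
  have h1 : (n : ℝ) * ((y + u * z : ℕ) : ℝ) ^ k / q = ∑ i ∈ range (k + 1), T i := by
    have : ((y + u * z : ℕ) : ℝ) = (u : ℝ) * z + y := by push_cast; ring
    rw [this, add_pow, mul_sum, sum_div]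
    apply sum_congr rfl
    intro i _
    simp only [hT]
    rw [mul_pow]
    ring
  have h2 : ∃ w : ℤ, ∑ i ∈ range (k + 1), T i = ∑ i ∈ range (s + 1), T i + w := by
    rcases le_total (s + 1) (k + 1) with h | h
    · have h3 : ∀ i : ℕ, ∃ w : ℤ, s + 1 ≤ i → T i = w := by
        intro i
        by_cases hi : s + 1 ≤ i
        · obtain ⟨w, hw⟩ := Bn_int k s n q u y z hq hqu i hi
          exact ⟨w, fun _ => hw⟩
        · exact ⟨0, fun h => absurd h hi⟩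
      choose w hw using h3
      refine ⟨∑ i ∈ Ico (s + 1) (k + 1), w i, ?_⟩
      rw [← sum_range_add_sum_Ico T h]
      push_cast
      congr 1
      apply sum_congr rfl
      intro i hi
      exact hw i (mem_Ico.1 hi).1
    · refine ⟨0, ?_⟩
      rw [← sum_range_add_sum_Ico T h]
      have : ∑ i ∈ Ico (k + 1) (s + 1), T i = 0 := by
        apply sum_eq_zero
        intro i hi
        have hi' := (mem_Ico.1 hi).1
        simp only [hT]
        rw [Nat.choose_eq_zero_of_lt (by omega)]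
        simp
      rw [this]
      simp
  obtain ⟨w, hw⟩ := h2
  rw [h1, hw, e_add_int]

theorem expand_top (k s E q : ℕ) (n : ℤ) (hA : Adm k E) (hq : q ∣ E ^ k) (y : ℕ) :
    ∃ a : ℕ → ℝ, ∀ z : ℕ, e ((n : ℝ) * ((y + uu E q s * z : ℕ) : ℝ) ^ k / q) =
      e (((n * (k.choose s : ℤ) * (y : ℤ) ^ (k - s) * (ww E q s : ℤ) : ℤ) : ℝ) * (z : ℝ) ^ s /
        (qd E q s : ℕ) + ∑ j ∈ range s, a j * (z : ℝ) ^ j) := by
  refine ⟨fun j => (n : ℝ) * (k.choose j) * (y : ℝ) ^ (k - j) * (uu E q s : ℝ) ^ j / q, ?_⟩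
  intro z
  rw [expand k s n q (uu E q s) y z (hA.pos_of_dvd hq) (dvd_uu_pow k E q s hA hq),
    sum_range_succ, add_comm]
  congr 2
  have h := frac k E q s hA hq
  have h2 : (n : ℝ) * (k.choose s) * (y : ℝ) ^ (k - s) * (uu E q s : ℝ) ^ s / q =
      (n : ℝ) * (k.choose s) * (y : ℝ) ^ (k - s) * ((uu E q s : ℝ) ^ s / q) := by ring
  rw [h2, h]
  push_cast
  ring

theorem top_coprime (k s E q : ℕ) (n : ℤ) (hsk : s ≤ k) (hA : Adm k E) (hq : q ∣ E ^ k)
    (hn : IsCoprime n (q : ℤ)) (y : ℕ) (hy : Nat.Coprime y E) :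
    IsCoprime (n * (k.choose s : ℤ) * (y : ℤ) ^ (k - s) * (ww E q s : ℤ)) (qd E q s : ℤ) := by
  have hpr := qd_primes k E q s hq
  have h1 : IsCoprime n (qd E q s : ℤ) :=
    hn.of_isCoprime_of_dvd_right (by exact_mod_cast qd_dvd E q s)
  have h2 : IsCoprime (k.choose s : ℤ) (qd E q s : ℤ) :=
    Nat.isCoprime_iff_coprime.2 (hA.coprime_choose hpr hsk)
  have h3 : IsCoprime (y : ℤ) (qd E q s : ℤ) :=
    Nat.isCoprime_iff_coprime.2 (coprime_of_primes hpr hy)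
  have h4 : IsCoprime (ww E q s : ℤ) (qd E q s : ℤ) :=
    Nat.isCoprime_iff_coprime.2 (ww_coprime k E q s hA hq)
  exact ((h1.mul_left h2).mul_left h3.pow_left).mul_left h4

end Pool.Agent.Lib.MP_570bef_ntV.OF
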