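import Pool.Agent.Lib.MP_570bef_ntV.OF.Defs

/-!
# Job OF/LnA: sum of 1/(2 nn(c/Q))

For 1 ≤ c ≤ Q-1: nn(c/Q) = min(c, Q-c)/Q, so 1/(2 nn(c/Q)) ≤ Q/(2c) + Q/(2(Q-c)) is too lossy by log only: use
1/min(c,Q-c) and split at Q/2: c ≤ Q/2 gives Q/(2c), c > Q/2 gives Q/(2(Q-c)); both sums are ≤ (Q/2) * H(floor(Q/2)) ≤ (Q/2)(1 + log Q)
(`harmonic_le_one_add_log`, or `Real.log` comparison). Total ≤ Q (1 + log Q).
-/

set_option autoImplicit false

open Finset Real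
open Pool.Agent.Lib.MP_2a816b_nt (e nn D norm_e e_add e_int e_nat e_add_int e_zero norm_D_mul_nn)

namespace Pool.Agent.Lib.MP_570bef_ntV.OF

private theorem LnA_nn (Q c : ℕ) (hc : 1 ≤ c) (hcQ : c < Q) :
    min (c : ℝ) ((Q : ℝ) - c) / Q ≤ nn ((c : ℝ) / Q) := by
  have hQ : (0 : ℝ) < Q := by exact_mod_cast (by omega : 0 < Q)
  have hc0 : (0 : ℝ) < c := by exact_mod_cast hc
  have hcQ' : (c : ℝ) < Q := by exact_mod_cast hcQ
  have hx0 : 0 < (c : ℝ) / Q := by positivity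
  have hx1 : (c : ℝ) / Q < 1 := by rw [div_lt_one hQ]; exact hcQ'
  unfold nn
  have hab := abs_sub_round ((c : ℝ) / Q)
  rw [abs_le] at hab
  have h1 : ((round ((c : ℝ) / Q) : ℤ) : ℝ) < 2 := by linarith [hab.1]
  have h2 : (-1 : ℝ) < ((round ((c : ℝ) / Q) : ℤ) : ℝ) := by linarith [hab.2]
  have h1' : round ((c : ℝ) / Q) < 2 := by exact_mod_cast h1
  have h2' : -1 < round ((c : ℝ) / Q) := by exact_mod_cast h2
  have h3 : round ((c : ℝ) / Q) = 0 ∨ round ((c : ℝ) / Q) = 1 := by omega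
  rcases h3 with h | h
  · rw [h, Int.cast_zero, sub_zero, abs_of_pos hx0]
    gcongr
    exact min_le_left _ _
  · rw [h, Int.cast_one, abs_of_neg (by linarith)]
    have : -((c : ℝ) / Q - 1) = ((Q : ℝ) - c) / Q := by field_simp; ring
    rw [this]
    gcongr
    exact min_le_right _ _

private theorem LnA_term (Q c : ℕ) (hc : 1 ≤ c) (hcQ : c < Q) :
    1 / (2 * nn ((c : ℝ) / Q)) ≤
      if 2 * c ≤ Q then (Q : ℝ) / (2 * c) else (Q : ℝ) / (2 * ((Q - c : ℕ) : ℝ)) := by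
  have hQ : (0 : ℝ) < Q := by exact_mod_cast (by omega : 0 < Q)
  have hc0 : (0 : ℝ) < c := by exact_mod_cast hc
  have h := LnA_nn Q c hc hcQ
  split_ifs with h2
  · have h2' : (2 : ℝ) * c ≤ Q := by exact_mod_cast h2
    rw [min_eq_left (by linarith)] at h
    have h3 : 0 < (c : ℝ) / Q := by positivity
    calc 1 / (2 * nn ((c : ℝ) / Q)) ≤ 1 / (2 * ((c : ℝ) / Q)) := by gcongr
      _ = (Q : ℝ) / (2 * c) := by field_simp
  · have h2' : (Q : ℝ) < 2 * c := by exact_mod_cast (not_le.1 h2)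
    rw [min_eq_right (by linarith)] at h
    have h4 : ((Q - c : ℕ) : ℝ) = (Q : ℝ) - c := by rw [Nat.cast_sub hcQ.le]
    have h5 : 0 < (Q : ℝ) - c := by
      have : (c : ℝ) < Q := by exact_mod_cast hcQ
      linarith
    have h3 : 0 < ((Q : ℝ) - c) / Q := by positivity
    rw [h4]
    calc 1 / (2 * nn ((c : ℝ) / Q)) ≤ 1 / (2 * (((Q : ℝ) - c) / Q)) := by gcongr
      _ = (Q : ℝ) / (2 * ((Q : ℝ) - c)) := by field_simp

theorem sum_inv_nn (Q : ℕ) (hQ : 1 ≤ Q) :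
    ∑ c ∈ (range Q).filter (fun c => c ≠ 0), 1 / (2 * nn ((c : ℝ) / Q)) ≤
      (Q : ℝ) * (1 + Real.log Q) := by
  have hQ0 : (0 : ℝ) < Q := by exact_mod_cast hQ
  set S := (range Q).filter (fun c => c ≠ 0) with hS
  have hmem : ∀ c ∈ S, 1 ≤ c ∧ c < Q := by
    intro c hc
    rw [hS, mem_filter, mem_range] at hc
    omega
  have hH : ∑ d ∈ Icc 1 (Q / 2), (Q : ℝ) / (2 * d) ≤ (Q : ℝ) / 2 * (1 + Real.log Q) := by
    have h1 : ∑ d ∈ Icc 1 (Q / 2), (Q : ℝ) / (2 * d) =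
        (Q : ℝ) / 2 * ((harmonic (Q / 2) : ℚ) : ℝ) := by
      rw [harmonic_eq_sum_Icc]
      push_cast
      rw [mul_sum]
      apply sum_congr rfl
      intro d hd
      rw [mem_Icc] at hd
      have : (0 : ℝ) < d := by exact_mod_cast hd.1
      field_simp
    rw [h1]
    have h2 := harmonic_le_one_add_log (Q / 2)
    have h3 : Real.log ((Q / 2 : ℕ) : ℝ) ≤ Real.log Q := by
      rcases Nat.eq_zero_or_pos (Q / 2) with h | h
      · rw [h]
        simp only [Nat.cast_zero, Real.log_zero]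
        exact Real.log_natCast_nonneg Q
      · apply Real.log_le_log (by exact_mod_cast h)
        exact_mod_cast Nat.div_le_self Q 2
    have h4 : ((harmonic (Q / 2) : ℚ) : ℝ) ≤ 1 + Real.log Q := by linarith
    gcongr
  have hA : ∑ c ∈ S.filter (fun c => 2 * c ≤ Q), (Q : ℝ) / (2 * c) ≤
      ∑ d ∈ Icc 1 (Q / 2), (Q : ℝ) / (2 * d) := by
    apply sum_le_sum_of_subset_of_nonneg
    · intro c hc
      rw [mem_filter] at hc
      have := hmem c hc.1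
      rw [mem_Icc]
      omega
    · intro d _ _
      positivity
  have hB : ∑ c ∈ S.filter (fun c => ¬ 2 * c ≤ Q), (Q : ℝ) / (2 * ((Q - c : ℕ) : ℝ)) ≤
      ∑ d ∈ Icc 1 (Q / 2), (Q : ℝ) / (2 * d) := by
    have h1 : ∑ c ∈ S.filter (fun c => ¬ 2 * c ≤ Q), (Q : ℝ) / (2 * ((Q - c : ℕ) : ℝ)) =
        ∑ d ∈ (S.filter (fun c => ¬ 2 * c ≤ Q)).image (fun c => Q - c), (Q : ℝ) / (2 * (d : ℝ)) := by
      rw [sum_image]
      intro a ha b hb hab
      have ha' := hmem a (mem_filter.1 (mem_coe.1 ha)).1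
      have hb' := hmem b (mem_filter.1 (mem_coe.1 hb)).1
      simp only at hab
      omega
    rw [h1]
    apply sum_le_sum_of_subset_of_nonneg
    · intro d hd
      rw [mem_image] at hd
      obtain ⟨c, hc, rfl⟩ := hd
      rw [mem_filter] at hc
      have := hmem c hc.1
      rw [mem_Icc]
      omega
    · intro d _ _
      positivity
  calc ∑ c ∈ S, 1 / (2 * nn ((c : ℝ) / Q))
      ≤ ∑ c ∈ S, (if 2 * c ≤ Q then (Q : ℝ) / (2 * c) else (Q : ℝ) / (2 * ((Q - c : ℕ) : ℝ))) :=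
        sum_le_sum fun c hc => LnA_term Q c (hmem c hc).1 (hmem c hc).2
    _ = ∑ c ∈ S.filter (fun c => 2 * c ≤ Q), (Q : ℝ) / (2 * c) +
        ∑ c ∈ S.filter (fun c => ¬ 2 * c ≤ Q), (Q : ℝ) / (2 * ((Q - c : ℕ) : ℝ)) := by
        rw [sum_ite]
    _ ≤ (Q : ℝ) / 2 * (1 + Real.log Q) + (Q : ℝ) / 2 * (1 + Real.log Q) :=
        add_le_add (hA.trans hH) (hB.trans hH)
    _ = (Q : ℝ) * (1 + Real.log Q) := by ring

end Pool.Agent.Lib.MP_570bef_ntV.OF
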