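import Pool.Agent.Lib.MP_570bef_ntV.OF.Defs

/-!
# Job OF/Rt: number of d-th roots modulo Q

Statement: if all primes of `Q` exceed `d`, then `x^d = c mod Q` has at most `d^(om Q)` solutions prime to `Q`.
Proof. Let S be the set. Map x to the function p ↦ (x : ZMod p) (or x % p) on Q.primeFactors, e.g. into
`Fintype.piFinset` / `Finset.pi Q.primeFactors (fun p => roots of X^d = c in ZMod p)`; for each prime p the polynomial
X^d - C c over the field ZMod p has at most d roots (`Polynomial.card_roots'`, `Polynomial.card_nthRoots`), so the target has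
at most prod_p d = d^(om Q) elements (`Finset.card_pi`, `prod_const`).
Injectivity: let x, y in S with x = y mod p for all p | Q. In the integers
x^d - y^d = (x - y) * T, T = sum_{j<d} x^j y^(d-1-j) (`Commute.mul_geom_sum₂`, `geom_sum₂_mul`, or `sub_mul_geom...`).
For every prime p | Q: T = d x^(d-1) mod p, and p does not divide d (1 ≤ d < p) nor x (x prime to Q): T is prime to Q.
So Q | (x - y) T gives Q | x - y (`IsCoprime.dvd_of_dvd_mul_right`), and 0 ≤ x, y < Q gives x = y.
(Q = 1: the set has at most one element, the bound is 1.)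
-/

set_option autoImplicit false

open Finset Real
open Pool.Agent.Lib.MP_2a816b_nt (e nn D norm_e e_add e_int e_nat e_add_int e_zero norm_D_mul_nn)

namespace Pool.Agent.Lib.MP_570bef_ntV.OF

theorem Rt_prime (d p c : ℕ) (hp : p.Prime) (hd : 1 ≤ d) :
    ((range p).filter fun z => z ^ d ≡ c [MOD p]).card ≤ d := by
  haveI : Fact p.Prime := ⟨hp⟩
  classical
  have h1 : ((range p).filter fun z => z ^ d ≡ c [MOD p]).card ≤
      (Polynomial.nthRoots d (c : ZMod p)).toFinset.card := by
    apply Finset.card_le_card_of_injOn (fun z : ℕ => (z : ZMod p))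
    · intro z hz
      have hz' := Finset.mem_filter.1 (Finset.mem_coe.1 hz)
      apply Finset.mem_coe.2
      apply Multiset.mem_toFinset.2
      rw [Polynomial.mem_nthRoots (by omega : 0 < d)]
      have := (ZMod.natCast_eq_natCast_iff (z ^ d) c p).2 hz'.2
      push_cast at this
      exact this
    · intro z hz w hw hzw
      have hz' := Finset.mem_range.1 (Finset.mem_filter.1 (Finset.mem_coe.1 hz)).1
      have hw' := Finset.mem_range.1 (Finset.mem_filter.1 (Finset.mem_coe.1 hw)).1
      have h := (ZMod.natCast_eq_natCast_iff z w p).1 hzw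
      unfold Nat.ModEq at h
      rwa [Nat.mod_eq_of_lt hz', Nat.mod_eq_of_lt hw'] at h
  refine h1.trans ((Multiset.toFinset_card_le _).trans ?_)
  exact Polynomial.card_nthRoots d _

theorem roots_le (d Q : ℕ) (hd : 1 ≤ d) (hQ : 1 ≤ Q) (hbig : ∀ p : ℕ, p.Prime → p ∣ Q → d < p)
    (c : ℕ) :
    ((range Q).filter fun x => Nat.Coprime x Q ∧ x ^ d ≡ c [MOD Q]).card ≤ d ^ om Q := by
  classical
  have key : ((range Q).filter fun x => Nat.Coprime x Q ∧ x ^ d ≡ c [MOD Q]).card ≤
      (Q.primeFactors.pi fun p => (range p).filter fun z => z ^ d ≡ c [MOD p]).card := by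
    apply Finset.card_le_card_of_injOn (fun x : ℕ => fun (p : ℕ) (_ : p ∈ Q.primeFactors) => x % p)
    · intro x hx
      have hx' := Finset.mem_filter.1 (Finset.mem_coe.1 hx)
      apply Finset.mem_coe.2
      apply Finset.mem_pi.2
      intro p hp
      have hpp := Nat.prime_of_mem_primeFactors hp
      have hpd := Nat.dvd_of_mem_primeFactors hp
      apply Finset.mem_filter.2
      refine ⟨Finset.mem_range.2 (Nat.mod_lt _ hpp.pos), ?_⟩
      have h1 : x ^ d ≡ c [MOD p] := hx'.2.2.of_dvd hpd
      exact ((Nat.mod_modEq x p).pow d).trans h1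
    · intro x hx y hy hxy
      have hx' := Finset.mem_filter.1 (Finset.mem_coe.1 hx)
      have hy' := Finset.mem_filter.1 (Finset.mem_coe.1 hy)
      have hxQ := Finset.mem_range.1 hx'.1
      have hyQ := Finset.mem_range.1 hy'.1
      have hmod : ∀ p ∈ Q.primeFactors, x % p = y % p := fun p hp =>
        congrFun (congrFun hxy p) hp
      set T : ℤ := ∑ i ∈ range d, (x : ℤ) ^ i * (y : ℤ) ^ (d - 1 - i) with hT
      have hfac : T * ((x : ℤ) - y) = (x : ℤ) ^ d - (y : ℤ) ^ d := by
        rw [hT]
        exact (Commute.all (x : ℤ) (y : ℤ)).geom_sum₂_mul d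
      have hdvd : (Q : ℤ) ∣ T * ((x : ℤ) - y) := by
        rw [hfac]
        have h1 : y ^ d ≡ x ^ d [MOD Q] := hy'.2.2.trans hx'.2.2.symm
        have h2 := (Nat.modEq_iff_dvd.1 h1)
        push_cast at h2
        exact h2
      have hcop : IsCoprime (Q : ℤ) T := by
        rw [Int.isCoprime_iff_gcd_eq_one]
        rw [Int.gcd_eq_natAbs]
        rw [Int.natAbs_natCast]
        apply Nat.coprime_of_dvd
        intro p hp hpQ hpT
        haveI : Fact p.Prime := ⟨hp⟩
        have hpm : p ∈ Q.primeFactors := Nat.mem_primeFactors.2 ⟨hp, hpQ, by omega⟩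
        have hxy' : (x : ZMod p) = (y : ZMod p) :=
          (ZMod.natCast_eq_natCast_iff x y p).2 (hmod p hpm)
        have hT0 : ((T : ℤ) : ZMod p) = 0 := by
          rw [ZMod.intCast_zmod_eq_zero_iff_dvd]
          exact Int.natCast_dvd.2 hpT
        have hT1 : ((T : ℤ) : ZMod p) = (d : ZMod p) * (x : ZMod p) ^ (d - 1) := by
          rw [hT]
          push_cast
          rw [← hxy']
          have : ∀ i ∈ range d, (x : ZMod p) ^ i * (x : ZMod p) ^ (d - 1 - i) =
              (x : ZMod p) ^ (d - 1) := by
            intro i hi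
            rw [← pow_add]
            have := Finset.mem_range.1 hi
            rw [show i + (d - 1 - i) = d - 1 by omega]
          rw [Finset.sum_congr rfl this, Finset.sum_const, Finset.card_range, nsmul_eq_mul]
        rw [hT1] at hT0
        rcases mul_eq_zero.1 hT0 with h | h
        · have h2 := (ZMod.natCast_eq_zero_iff d p).1 h
          have h3 := Nat.le_of_dvd (by omega) h2
          have h4 := hbig p hp hpQ
          omega
        · have h2 := eq_zero_of_pow_eq_zero h
          have h3 := (ZMod.natCast_eq_zero_iff x p).1 h2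
          have h4 : p ∣ Nat.gcd x Q := Nat.dvd_gcd h3 hpQ
          rw [hx'.2.1] at h4
          exact hp.one_lt.ne' (Nat.eq_one_of_dvd_one h4)
      have hd2 : (Q : ℤ) ∣ (x : ℤ) - y := hcop.dvd_of_dvd_mul_left hdvd
      have h5 : y ≡ x [MOD Q] := Nat.modEq_iff_dvd.2 hd2
      unfold Nat.ModEq at h5
      rw [Nat.mod_eq_of_lt hxQ, Nat.mod_eq_of_lt hyQ] at h5
      exact h5.symm
  refine key.trans ?_
  rw [Finset.card_pi]
  unfold om
  apply Finset.prod_le_pow_card
  intro p hp
  exact Rt_prime d p c (Nat.prime_of_mem_primeFactors hp) hd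

end Pool.Agent.Lib.MP_570bef_ntV.OF
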