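import Pool.Agent.Lib.MP_570bef_ntV.OF.Defs
import Pool.Agent.Lib.MP_570bef_ntV.OF.Rt
import Pool.Agent.Lib.MP_570bef_ntV.OF.UuA
import Pool.Agent.Lib.MP_570bef_ntV.OF.UuC
import Pool.Agent.Lib.MP_570bef_ntV.OF.LnA

/-!
# Job OF/LnB: the sum over the base points of the linear shift

u = uu E q 1, Q = qd E q 1 > 1, Q | u, m(y) = n * k * y^(k-1) * w, w = ww E q 1, prime to Q for (y,E) = 1.
nn(m(y)/Q) depends on c(y) = m(y) mod Q in range Q, c(y) ≠ 0. For each c the y in [1,u], (y,E)=1, with c(y) = c satisfy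
y^(k-1) = c' mod Q (n, k, w are units mod Q), i.e. y mod Q lies in a set of at most (k-1)^(om Q) ≤ k^(om E) residues (`roots_le`,
d = k-1; om Q ≤ om E because the primes of Q divide E), and every residue class mod Q has exactly u/Q elements in [1,u].
So the sum is ≤ k^(om E) (u/Q) sum_{c ≠ 0} 1/(2 nn(c/Q)) ≤ k^(om E) (u/Q) Q (1 + log Q) ≤ k^(om E) u (1 + log q) (`sum_inv_nn`, Q ≤ q).
Here `Nat.choose k 1 = k` and `ww` appear exactly as in `expand_top` with s = 1.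
-/

set_option autoImplicit false

open Finset Real
open Pool.Agent.Lib.MP_2a816b_nt (e nn D norm_e e_add e_int e_nat e_add_int e_zero norm_D_mul_nn)

namespace Pool.Agent.Lib.MP_570bef_ntV.OF

private theorem LnB_nn (A : ℤ) (Q : ℕ) (hQ : 0 < Q) : nn ((A : ℝ) / Q) = nn (((A % (Q : ℤ)).toNat : ℝ) / Q) := by
  have hQ' : (Q : ℝ) ≠ 0 := by exact_mod_cast hQ.ne'
  have h0 : 0 ≤ A % (Q : ℤ) := Int.emod_nonneg _ (by exact_mod_cast hQ.ne')
  have h1 : (((A % (Q : ℤ)).toNat : ℕ) : ℤ) = A % (Q : ℤ) := Int.toNat_of_nonneg h0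
  have h2 : (((A % (Q : ℤ)).toNat : ℕ) : ℝ) = ((A % (Q : ℤ) : ℤ) : ℝ) := by exact_mod_cast congrArg (fun z : ℤ => (z : ℝ)) h1
  have h3 : (A : ℝ) = ((A % (Q : ℤ) : ℤ) : ℝ) + Q * ((A / (Q : ℤ) : ℤ) : ℝ) := by
    exact_mod_cast (Int.emod_add_mul_ediv A Q).symm
  have h4 : (A : ℝ) / Q = ((A % (Q : ℤ)).toNat : ℝ) / Q + ((A / (Q : ℤ) : ℤ) : ℝ) := by
    rw [h2, h3]
    field_simp
  rw [h4]
  unfold nn
  rw [round_add_intCast]
  push_cast
  congr 1
  ring

private theorem LnB_class (Q u x : ℕ) (hQ : 0 < Q) (hu : Q ∣ u) (T : Finset ℕ) (hT : ∀ y ∈ T, 1 ≤ y ∧ y ≤ u ∧ y % Q = x) :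
    T.card ≤ u / Q := by
  rw [← card_range (u / Q)]
  refine card_le_card_of_injOn (fun y => (y - 1) / Q) ?_ ?_
  · intro y hy
    obtain ⟨h1, h2, -⟩ := hT y (mem_coe.1 hy)
    refine mem_coe.2 (mem_range.2 ?_)
    show (y - 1) / Q < u / Q
    rw [Nat.div_lt_iff_lt_mul hQ, Nat.div_mul_cancel hu]
    omega
  · intro y hy z hz hyz
    obtain ⟨h1, -, h3⟩ := hT y (mem_coe.1 hy)
    obtain ⟨h4, -, h6⟩ := hT z (mem_coe.1 hz)
    have h7 : (y - 1) / Q = (z - 1) / Q := hyz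
    have h8 : (y - 1) % Q = (z - 1) % Q := by
      have h9 : y - 1 + 1 ≡ z - 1 + 1 [MOD Q] := by
        rw [Nat.sub_add_cancel h1, Nat.sub_add_cancel h4]
        exact h3.trans h6.symm
      exact Nat.ModEq.add_right_cancel' 1 h9
    have h9 := Nat.div_add_mod (y - 1) Q
    have h10 := Nat.div_add_mod (z - 1) Q
    rw [h7, h8] at h9
    omega

theorem sum_base (k E q : ℕ) (n : ℤ) (hk : 2 ≤ k) (hA : Adm k E) (hq : q ∣ E ^ k)
    (hn : IsCoprime n (q : ℤ)) (hns : ¬ Squarefree q) :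
    ∑ y ∈ cop E (uu E q 1), 1 / (2 * nn (((n * (k.choose 1 : ℤ) * (y : ℤ) ^ (k - 1) *
        (ww E q 1 : ℤ) : ℤ) : ℝ) / (qd E q 1 : ℕ))) ≤
      (k : ℝ) ^ om E * (uu E q 1 : ℝ) * (1 + Real.log q) := by
  classical
  have hQ1 : 1 < qd E q 1 := one_lt_qd k E q hA hq hns
  have hQu : qd E q 1 ∣ uu E q 1 := qd_dvd_uu k E q hA hq
  have hQq : qd E q 1 ∣ q := qd_dvd E q 1
  have hQp : ∀ p : ℕ, p.Prime → p ∣ qd E q 1 → p ∣ E := qd_primes k E q 1 hq
  have hwQ : Nat.Coprime (ww E q 1) (qd E q 1) := ww_coprime k E q 1 hA hq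
  have hq0 : 0 < q := hA.pos_of_dvd hq
  have hE0 : 0 < E := hA.pos
  have hchQ : Nat.Coprime (k.choose 1) (qd E q 1) := hA.coprime_choose hQp (by omega)
  have hnQ : IsCoprime n ((qd E q 1 : ℕ) : ℤ) := hn.of_isCoprime_of_dvd_right (by exact_mod_cast hQq)
  generalize hu : uu E q 1 = u at *
  generalize hQ : qd E q 1 = Q at *
  generalize hw : ww E q 1 = w at *
  have hQ0 : 0 < Q := by omega
  have hQR : (0 : ℝ) < Q := by exact_mod_cast hQ0
  -- the multiplier is a unit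
  have hmu : IsCoprime (n * (k.choose 1 : ℤ) * (w : ℤ)) (Q : ℤ) :=
    (hnQ.mul_left (Nat.isCoprime_iff_coprime.2 hchQ)).mul_left (Nat.isCoprime_iff_coprime.2 hwQ)
  let A : ℕ → ℤ := fun y => n * (k.choose 1 : ℤ) * (y : ℤ) ^ (k - 1) * (w : ℤ)
  let c : ℕ → ℕ := fun y => (A y % (Q : ℤ)).toNat
  have hcA : ∀ y, ((c y : ℕ) : ℤ) = A y % (Q : ℤ) := fun y => Int.toNat_of_nonneg (Int.emod_nonneg _ (by exact_mod_cast hQ0.ne'))
  have hcop : ∀ y ∈ cop E u, Nat.Coprime y Q := fun y hy => coprime_of_primes hQp (mem_filter.1 hy).2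
  let R : Finset ℕ := (range Q).filter (fun c => c ≠ 0)
  have hcR : ∀ y ∈ cop E u, c y ∈ R := by
    intro y hy
    refine mem_filter.2 ⟨mem_range.2 ?_, ?_⟩
    · have h1 : A y % (Q : ℤ) < Q := Int.emod_lt_of_pos _ (by exact_mod_cast hQ0)
      have h2 := hcA y
      rw [← h2] at h1
      exact_mod_cast h1
    · intro h0
      have h1 := hcA y
      rw [h0] at h1
      have h2 : (Q : ℤ) ∣ A y := Int.dvd_of_emod_eq_zero h1.symm
      have h3 : IsCoprime (A y) (Q : ℤ) := by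
        have h4 : IsCoprime ((y : ℤ) ^ (k - 1)) (Q : ℤ) := (Nat.isCoprime_iff_coprime.2 (hcop y hy)).pow_left
        have h5 := hmu.mul_left h4
        have h6 : n * (k.choose 1 : ℤ) * (w : ℤ) * (y : ℤ) ^ (k - 1) = A y := by
          show _ = n * (k.choose 1 : ℤ) * (y : ℤ) ^ (k - 1) * (w : ℤ)
          ring
        rwa [h6] at h5
      have h7 : IsUnit (Q : ℤ) := h3.isUnit_of_dvd' h2 dvd_rfl
      rw [Int.isUnit_iff] at h7
      rcases h7 with h7 | h7 <;> omega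
  let f : ℕ → ℝ := fun c => 1 / (2 * nn ((c : ℝ) / Q))
  have hf : ∀ c, 0 ≤ f c := fun c => by
    show 0 ≤ 1 / (2 * nn ((c : ℝ) / Q))
    have := Pool.Agent.Lib.MP_2a816b_nt.nn_nonneg ((c : ℝ) / Q)
    positivity
  have hsum : ∑ y ∈ cop E u, 1 / (2 * nn (((n * (k.choose 1 : ℤ) * (y : ℤ) ^ (k - 1) * (w : ℤ) : ℤ) : ℝ) / (Q : ℕ))) = ∑ y ∈ cop E u, f (c y) := by
    refine sum_congr rfl fun y _ => ?_
    show 1 / (2 * nn (((A y : ℤ) : ℝ) / Q)) = 1 / (2 * nn (((A y % (Q : ℤ)).toNat : ℝ) / Q))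
    rw [LnB_nn (A y) Q hQ0]
  rw [hsum, ← sum_fiberwise_of_maps_to hcR]
  -- the fibres
  have hfib : ∀ d ∈ R, (((cop E u).filter (fun y => c y = d)).card : ℝ) ≤ (k : ℝ) ^ om E * (u / Q : ℕ) := by
    intro d _
    rcases ((cop E u).filter (fun y => c y = d)).eq_empty_or_nonempty with hemp | ⟨y0, hy0⟩
    · rw [hemp, card_empty, Nat.cast_zero]
      positivity
    · have hy0' := mem_filter.1 hy0
      let T : Finset ℕ := (range Q).filter fun x => Nat.Coprime x Q ∧ x ^ (k - 1) ≡ y0 ^ (k - 1) [MOD Q]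
      have hTc : T.card ≤ (k - 1) ^ om Q := roots_le (k - 1) Q (by omega) (by omega) (fun p hp hpQ => by
        have := hA.big p hp (hQp p hp hpQ)
        omega) (y0 ^ (k - 1))
      have hmaps : ∀ y ∈ (cop E u).filter (fun y => c y = d), y % Q ∈ T := by
        intro y hy
        have hy' := mem_filter.1 hy
        refine mem_filter.2 ⟨mem_range.2 (Nat.mod_lt _ hQ0), ?_, ?_⟩
        · have h1 := hcop y hy'.1
          have h2 : Nat.gcd (y % Q) Q = 1 := by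
            rw [← Nat.gcd_rec, Nat.gcd_comm]
            exact h1
          exact h2
        · have h1 : A y ≡ A y0 [ZMOD Q] := by
            show A y % (Q : ℤ) = A y0 % (Q : ℤ)
            rw [← hcA y, ← hcA y0, hy'.2, hy0'.2]
          have h2 : (Q : ℤ) ∣ (n * (k.choose 1 : ℤ) * (w : ℤ)) * ((y : ℤ) ^ (k - 1) - (y0 : ℤ) ^ (k - 1)) := by
            have h3 := h1.symm.dvd
            have h4 : A y - A y0 = (n * (k.choose 1 : ℤ) * (w : ℤ)) * ((y : ℤ) ^ (k - 1) - (y0 : ℤ) ^ (k - 1)) := by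
              show n * (k.choose 1 : ℤ) * (y : ℤ) ^ (k - 1) * (w : ℤ) - n * (k.choose 1 : ℤ) * (y0 : ℤ) ^ (k - 1) * (w : ℤ) = _
              ring
            rwa [h4] at h3
          have h3 : (Q : ℤ) ∣ (y : ℤ) ^ (k - 1) - (y0 : ℤ) ^ (k - 1) := hmu.symm.dvd_of_dvd_mul_left h2
          have h4 : y0 ^ (k - 1) ≡ y ^ (k - 1) [MOD Q] := by
            rw [Nat.modEq_iff_dvd]
            push_cast
            exact h3
          have h5 : (y % Q) ^ (k - 1) ≡ y ^ (k - 1) [MOD Q] := (Nat.mod_modEq y Q).pow (k - 1)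
          exact h5.trans h4.symm
      have hcls : ∀ x ∈ T, (((cop E u).filter (fun y => c y = d)).filter (fun y => y % Q = x)).card ≤ u / Q := by
        intro x _
        refine LnB_class Q u x hQ0 hQu _ fun y hy => ?_
        have h1 := mem_filter.1 hy
        have h2 := mem_filter.1 (mem_filter.1 h1.1).1
        have h3 := mem_Icc.1 h2.1
        exact ⟨h3.1, h3.2, h1.2⟩
      have h1 := card_le_mul_card_image_of_maps_to hmaps (u / Q) hcls
      have hom : om Q ≤ om E := card_le_card fun p hp => by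
        have hp' := Nat.mem_primeFactors.1 hp
        exact Nat.mem_primeFactors.2 ⟨hp'.1, hQp p hp'.1 hp'.2.1, hE0.ne'⟩
      have h2 : T.card ≤ k ^ om E := by
        calc T.card ≤ (k - 1) ^ om Q := hTc
          _ ≤ k ^ om Q := Nat.pow_le_pow_left (by omega) _
          _ ≤ k ^ om E := Nat.pow_le_pow_right (by omega) hom
      have h3 : ((cop E u).filter (fun y => c y = d)).card ≤ k ^ om E * (u / Q) := by
        calc _ ≤ u / Q * T.card := h1
          _ ≤ u / Q * k ^ om E := Nat.mul_le_mul_left _ h2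
          _ = k ^ om E * (u / Q) := Nat.mul_comm _ _
      exact_mod_cast h3
  have hin : ∀ d ∈ R, ∑ y ∈ (cop E u).filter (fun y => c y = d), f (c y) ≤ (k : ℝ) ^ om E * (u / Q : ℕ) * f d := by
    intro d hd
    calc ∑ y ∈ (cop E u).filter (fun y => c y = d), f (c y) = ∑ y ∈ (cop E u).filter (fun y => c y = d), f d :=
          sum_congr rfl fun y hy => by rw [(mem_filter.1 hy).2]
      _ = ((cop E u).filter (fun y => c y = d)).card * f d := by rw [sum_const, nsmul_eq_mul]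
      _ ≤ (k : ℝ) ^ om E * (u / Q : ℕ) * f d := mul_le_mul_of_nonneg_right (hfib d hd) (hf d)
  have hQq' : (Q : ℝ) ≤ q := by exact_mod_cast Nat.le_of_dvd hq0 hQq
  have huQ : ((u / Q : ℕ) : ℝ) * Q = u := by exact_mod_cast Nat.div_mul_cancel hQu
  calc ∑ d ∈ R, ∑ y ∈ (cop E u).filter (fun y => c y = d), f (c y)
      ≤ ∑ d ∈ R, (k : ℝ) ^ om E * (u / Q : ℕ) * f d := sum_le_sum hin
    _ = (k : ℝ) ^ om E * (u / Q : ℕ) * ∑ d ∈ R, f d := by rw [mul_sum]
    _ ≤ (k : ℝ) ^ om E * (u / Q : ℕ) * ((Q : ℝ) * (1 + Real.log Q)) :=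
        mul_le_mul_of_nonneg_left (sum_inv_nn Q (by omega)) (by positivity)
    _ = (k : ℝ) ^ om E * (((u / Q : ℕ) : ℝ) * Q) * (1 + Real.log Q) := by ring
    _ = (k : ℝ) ^ om E * (u : ℝ) * (1 + Real.log Q) := by rw [huQ]
    _ ≤ (k : ℝ) ^ om E * (u : ℝ) * (1 + Real.log q) := by
        refine mul_le_mul_of_nonneg_left ?_ (by positivity)
        have := Real.log_le_log hQR hQq'
        linarith

end Pool.Agent.Lib.MP_570bef_ntV.OF
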