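import Pool.Agent.Lib.MP_570bef_ntV.OF.Defs
import Pool.Agent.Lib.MP_570bef_ntV.OF.UuA
import Pool.Agent.Lib.MP_570bef_ntV.OF.UuC
import Pool.Agent.Lib.MP_570bef_ntV.OF.Bn
import Pool.Agent.Lib.MP_570bef_ntV.OF.LnB

/-!
# Job OF/LnC: theorem (B), non squarefree denominators, every Y

u = uu E q 1. Every y in cop E Y is y0 + u z with y0 in cop E u (1 ≤ y0 ≤ u, (y0,E)=1 by `cop_shift`), z ≥ 0; conversely for
y0 in cop E u the admissible z are those of range (K y0), K y0 = number of z with y0 + u z ≤ Y.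
Inner sum: by `expand_top` (s = 1): e(n (y0 + u z)^k/q) = e(m z/Q + a_0) (sum over range 1: a 0 * z^0), so its norm is
|D K (m/Q)| ≤ 1/(2 nn(m/Q)) (`norm_D_mul_nn`; nn(m/Q) > 0 because Q > 1 and m is prime to Q: `top_coprime`).
Sum over y0: `sum_base`, and u ≤ E q^(1/2) = E sqrt q (`uu_le` with s = 1; `Real.sqrt_eq_rpow`).
-/

set_option autoImplicit false

open Finset Real
open Pool.Agent.Lib.MP_2a816b_nt (e nn D norm_e e_add e_int e_nat e_add_int e_zero norm_D_mul_nn)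

namespace Pool.Agent.Lib.MP_570bef_ntV.OF

private theorem LnC_fiber (E Y u : ℕ) (hu : 0 < u)
    (hc : ∀ y z : ℕ, Nat.Coprime (y + u * z) E ↔ Nat.Coprime y E) (f : ℕ → ℂ) :
    ∑ y ∈ cop E Y, f y = ∑ y0 ∈ cop E u, ∑ z ∈ range ((Y + u - y0) / u), f (y0 + u * z) := by
  classical
  have hmaps : ∀ y ∈ cop E Y, (y - 1) % u + 1 ∈ cop E u := by
    intro y hy
    rw [cop, mem_filter, mem_Icc] at hy ⊢
    have h1 := Nat.mod_lt (y - 1) hu
    have h2 := Nat.mod_add_div (y - 1) u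
    refine ⟨⟨by omega, by omega⟩, ?_⟩
    rw [← hc _ ((y - 1) / u)]
    have e1 : (y - 1) % u + 1 + u * ((y - 1) / u) = y := by omega
    rw [e1]
    exact hy.2
  rw [← sum_fiberwise_of_maps_to hmaps]
  refine sum_congr rfl fun y0 hy0 => ?_
  rw [cop, mem_filter, mem_Icc] at hy0
  obtain ⟨⟨h1, h2⟩, h3⟩ := hy0
  have hK : ∀ z, z ∈ range ((Y + u - y0) / u) ↔ y0 + u * z ≤ Y := by
    intro z
    rw [mem_range, ← Nat.succ_le_iff, Nat.le_div_iff_mul_le hu, Nat.succ_mul, mul_comm z u]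
    omega
  symm
  refine sum_bij (fun z _ => y0 + u * z) ?_ ?_ ?_ ?_
  · intro z hz
    rw [mem_filter, cop, mem_filter, mem_Icc]
    refine ⟨⟨⟨by omega, (hK z).mp hz⟩, (hc _ _).mpr h3⟩, ?_⟩
    have e1 : y0 + u * z - 1 = (y0 - 1) + u * z := by omega
    rw [e1, Nat.add_mul_mod_self_left, Nat.mod_eq_of_lt (by omega)]
    omega
  · intro z _ z' _ h
    have h4 : u * z = u * z' := Nat.add_left_cancel h
    exact Nat.eq_of_mul_eq_mul_left hu h4
  · intro y hy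
    rw [mem_filter, cop, mem_filter, mem_Icc] at hy
    have h4 := Nat.mod_add_div (y - 1) u
    have e1 : y0 + u * ((y - 1) / u) = y := by omega
    exact ⟨(y - 1) / u, (hK _).mpr (by omega), e1⟩
  · intro z _
    rfl

private theorem LnC_nn_pos (m : ℤ) (Q : ℕ) (hQ : 1 < Q) (h : IsCoprime m (Q : ℤ)) :
    0 < nn ((m : ℝ) / (Q : ℕ)) := by
  have hQ0 : (Q : ℝ) ≠ 0 := by exact_mod_cast (by omega : Q ≠ 0)
  unfold nn
  rw [abs_pos, sub_ne_zero]
  intro h0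
  rw [div_eq_iff hQ0] at h0
  have h1 : m = round ((m : ℝ) / (Q : ℕ)) * (Q : ℤ) := by exact_mod_cast h0
  have h2 : IsUnit (Q : ℤ) := h.isUnit_of_dvd' (Dvd.intro_left _ h1.symm) dvd_rfl
  rw [Int.isUnit_iff] at h2
  omega

theorem TS_nsq (k E q Y : ℕ) (n : ℤ) (hk : 2 ≤ k) (hA : Adm k E) (hq : q ∣ E ^ k)
    (hn : IsCoprime n (q : ℤ)) (hns : ¬ Squarefree q) :
    ‖TS k n q E Y‖ ≤ (k : ℝ) ^ om E * E * Real.sqrt q * (1 + Real.log q) := by
  have hq0 : 0 < q := hA.pos_of_dvd hq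
  have hQ1 := one_lt_qd k E q hA hq hns
  have hlog : 0 ≤ 1 + Real.log q := by
    have h1 : (1 : ℝ) ≤ q := by exact_mod_cast hq0
    have h2 := Real.log_nonneg h1
    linarith
  rw [TS, LnC_fiber E Y (uu E q 1) (uu_pos E q 1) (fun y z => cop_shift E q 1 y z hA.sqf)]
  refine (norm_sum_le _ _).trans ?_
  have key : ∀ y0 ∈ cop E (uu E q 1),
      ‖∑ z ∈ range ((Y + uu E q 1 - y0) / uu E q 1),
        e ((n : ℝ) * ((y0 + uu E q 1 * z : ℕ) : ℝ) ^ k / q)‖ ≤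
      1 / (2 * nn (((n * (k.choose 1 : ℤ) * (y0 : ℤ) ^ (k - 1) *
        (ww E q 1 : ℤ) : ℤ) : ℝ) / (qd E q 1 : ℕ))) := by
    intro y0 hy0
    rw [cop, mem_filter, mem_Icc] at hy0
    obtain ⟨a, ha⟩ := expand_top k 1 E q n hA hq y0
    set m : ℤ := n * (k.choose 1 : ℤ) * (y0 : ℤ) ^ (k - 1) * (ww E q 1 : ℤ) with hm
    have hcop : IsCoprime m (qd E q 1 : ℤ) :=
      top_coprime k 1 E q n (by omega) hA hq hn y0 hy0.2
    have hpos := LnC_nn_pos m (qd E q 1) hQ1 hcop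
    have h1 : ∑ z ∈ range ((Y + uu E q 1 - y0) / uu E q 1),
        e ((n : ℝ) * ((y0 + uu E q 1 * z : ℕ) : ℝ) ^ k / q) =
        e (a 0) * D ((Y + uu E q 1 - y0) / uu E q 1) ((m : ℝ) / (qd E q 1 : ℕ)) := by
      rw [D, mul_sum]
      refine sum_congr rfl fun z _ => ?_
      rw [ha z, sum_range_one, pow_zero, mul_one, pow_one, e_add, mul_comm]
      congr 2
      ring
    rw [h1, norm_mul, norm_e, one_mul, le_div_iff₀ (by positivity)]
    exact norm_D_mul_nn _ _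
  refine (sum_le_sum key).trans ?_
  refine (sum_base k E q n hk hA hq hn hns).trans ?_
  have h2 := uu_le k E q 1 hA hq
  have h3 : (1 : ℝ) / (((1 : ℕ) : ℝ) + 1) = 1 / 2 := by norm_num
  rw [h3, ← Real.sqrt_eq_rpow] at h2
  have h4 : (k : ℝ) ^ om E * (uu E q 1 : ℝ) ≤ (k : ℝ) ^ om E * (E * Real.sqrt q) :=
    mul_le_mul_of_nonneg_left h2 (by positivity)
  calc (k : ℝ) ^ om E * (uu E q 1 : ℝ) * (1 + Real.log q) ≤
      (k : ℝ) ^ om E * (E * Real.sqrt q) * (1 + Real.log q) :=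
        mul_le_mul_of_nonneg_right h4 hlog
    _ = _ := by ring

end Pool.Agent.Lib.MP_570bef_ntV.OF
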