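import Pool.Agent.Lib.MP_570bef_ntV.OF.Defs
import Pool.Agent.Lib.MP_570bef_ntV.OF.LnC

/-!
# A sufficient condition for NS

off1: q | E^k so q ≤ E^k, sqrt q ≤ E^(k/2), log q ≤ k log E; `TS_nsq`.
-/

set_option autoImplicit false

open Finset Real
open Pool.Agent.Lib.MP_2a816b_nt (e nn D norm_e e_add e_int e_nat e_add_int e_zero norm_D_mul_nn)

namespace Pool.Agent.Lib.MP_570bef_ntV.OF

theorem off1 (k E Y : ℕ) (L : ℝ) (hk : 2 ≤ k) (hA : Adm k E) (hL : 1 ≤ L)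
    (h : (k : ℝ) ^ om E * (E : ℝ) ^ ((k : ℝ) / 2 + 1) * (1 + k * Real.log E) * L ≤ Y) :
    NS k E Y L := by
  intro q n hq hn hns
  have hE0 : 0 < E := hA.pos
  have hE : (0 : ℝ) < E := by exact_mod_cast hE0
  have hq0 : 0 < q := hA.pos_of_dvd hq
  have hqR : (0 : ℝ) < q := by exact_mod_cast hq0
  have hqE : (q : ℝ) ≤ (E : ℝ) ^ k := by
    have h1 : q ≤ E ^ k := Nat.le_of_dvd (pow_pos hE0 k) hq
    exact_mod_cast h1
  have h1 := TS_nsq k E q Y n hk hA hq hn hns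
  have h2 : √(q : ℝ) ≤ (E : ℝ) ^ ((k : ℝ) / 2) := by
    rw [Real.sqrt_le_left (by positivity)]
    have h3 : ((E : ℝ) ^ ((k : ℝ) / 2)) ^ 2 = (E : ℝ) ^ k := by
      rw [← Real.rpow_natCast, ← Real.rpow_mul hE.le, ← Real.rpow_natCast]
      congr 1
      push_cast
      ring
    rw [h3]
    exact hqE
  have h3 : Real.log q ≤ k * Real.log E := by
    rw [← Real.log_pow]
    exact Real.log_le_log hqR hqE
  have h4 : (0 : ℝ) ≤ Real.log q := Real.log_nonneg (by exact_mod_cast hq0)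
  have h5 : (E : ℝ) ^ ((k : ℝ) / 2 + 1) = E * (E : ℝ) ^ ((k : ℝ) / 2) := by
    rw [Real.rpow_add hE, Real.rpow_one, mul_comm]
  rw [le_div_iff₀ (by linarith)]
  refine le_trans ?_ h
  refine mul_le_mul_of_nonneg_right (h1.trans ?_) (by linarith)
  rw [h5]
  calc (k : ℝ) ^ om E * E * √(q : ℝ) * (1 + Real.log q)
      ≤ (k : ℝ) ^ om E * E * (E : ℝ) ^ ((k : ℝ) / 2) * (1 + Real.log q) := by
        refine mul_le_mul_of_nonneg_right ?_ (by linarith)
        exact mul_le_mul_of_nonneg_left h2 (by positivity)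
    _ ≤ (k : ℝ) ^ om E * E * (E : ℝ) ^ ((k : ℝ) / 2) * (1 + k * Real.log E) := by
        refine mul_le_mul_of_nonneg_left (by linarith) (by positivity)
    _ = (k : ℝ) ^ om E * (E * (E : ℝ) ^ ((k : ℝ) / 2)) * (1 + k * Real.log E) := by ring

end Pool.Agent.Lib.MP_570bef_ntV.OF
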