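import Mathlib
import Pool.Agent.Lib.MP_2a816b_nt.Expo

/-!
# MP_570bef_nt, stream V, block OFF: definitions

`e x = exp (2 π i x)` and `nn x` (distance to the nearest integer) are those of `MP_2a816b_nt.Expo`.
-/

set_option autoImplicit false

open Finset Real
open Pool.Agent.Lib.MP_2a816b_nt (e nn D norm_e e_add e_int e_nat e_add_int e_zero norm_D_mul_nn)

namespace Pool.Agent.Lib.MP_570bef_ntV.OF

/-- the `y` in `[1, Y]` prime to `E` -/
def cop (E Y : ℕ) : Finset ℕ := (Icc 1 Y).filter fun y => Nat.Coprime y E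

/-- `∑_{y ≤ Y, (y, E) = 1} e (n y ^ k / q)` -/
noncomputable def TS (k : ℕ) (n : ℤ) (q E Y : ℕ) : ℂ :=
  ∑ y ∈ cop E Y, e ((n : ℝ) * (y : ℝ) ^ k / q)

/-- `E` is squarefree and all its primes exceed `k` -/
structure Adm (k E : ℕ) : Prop where
  sqf : Squarefree E
  big : ∀ p : ℕ, p.Prime → p ∣ E → k < p

/-- number of primes of `E` -/
def om (E : ℕ) : ℕ := E.primeFactors.card

/-- the shift modulus -/
def uu (E q s : ℕ) : ℕ := ∏ p ∈ E.primeFactors, p ^ max 1 ((q.factorization p + s) / (s + 1))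

/-- the reduced denominator of `u ^ s / q` -/
def qd (E q s : ℕ) : ℕ := q / Nat.gcd q (uu E q s ^ s)

/-- the reduced numerator of `u ^ s / q` -/
def ww (E q s : ℕ) : ℕ := uu E q s ^ s / Nat.gcd q (uu E q s ^ s)

/-- the top coefficient theorem of degree `r` with saving `η` -/
def Top (r : ℕ) (η : ℝ) : Prop :=
  ∃ C : ℝ, 0 < C ∧ ∀ (N : ℕ) (a : ℕ → ℝ) (q : ℕ) (n : ℤ), 1 ≤ N → 1 ≤ q → IsCoprime n (q : ℤ) →
    Nat.Coprime r q → (N : ℝ) ^ (1 / 4 : ℝ) ≤ q → C * q ≤ (N : ℝ) ^ (r - 1) →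
    ‖∑ z ∈ Icc 1 N, e ((n : ℝ) * (z : ℝ) ^ r / q + ∑ j ∈ range r, a j * (z : ℝ) ^ j)‖ ≤
      C * (N : ℝ) ^ (1 - η)

/-- the non squarefree denominators have small sums -/
def NS (k E Y : ℕ) (L : ℝ) : Prop :=
  ∀ (q : ℕ) (n : ℤ), q ∣ E ^ k → IsCoprime n (q : ℤ) → ¬ Squarefree q →
    ‖TS k n q E Y‖ ≤ (Y : ℝ) / L

theorem Adm.pos {k E : ℕ} (h : Adm k E) : 0 < E := Nat.pos_of_ne_zero h.sqf.ne_zero

theorem card_cop_le (E Y : ℕ) : (cop E Y).card ≤ Y := by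
  unfold cop
  exact (card_filter_le _ _).trans (by simp)

theorem norm_TS_le (k : ℕ) (n : ℤ) (q E Y : ℕ) : ‖TS k n q E Y‖ ≤ Y := by
  unfold TS
  refine (norm_sum_le _ _).trans ?_
  simp only [norm_e, sum_const, nsmul_eq_mul, mul_one]
  exact_mod_cast card_cop_le E Y

theorem prime_dvd_of {k E q p : ℕ} (hp : p.Prime) (hq : q ∣ E ^ k) (hpq : p ∣ q) : p ∣ E :=
  hp.dvd_of_dvd_pow (hpq.trans hq)

theorem Adm.pos_of_dvd {k E q : ℕ} (h : Adm k E) (hq : q ∣ E ^ k) : 0 < q :=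
  Nat.pos_of_dvd_of_pos hq (pow_pos h.pos k)

/-- a number all of whose primes divide `E` is prime to every `1 ≤ m ≤ k` -/
theorem Adm.coprime_small {k E Q m : ℕ} (h : Adm k E) (hQ : ∀ p : ℕ, p.Prime → p ∣ Q → p ∣ E)
    (hm : 1 ≤ m) (hmk : m ≤ k) : Nat.Coprime m Q := by
  apply Nat.coprime_of_dvd
  intro p hp hpm hpQ
  have h1 := h.big p hp (hQ p hp hpQ)
  have h2 := Nat.le_of_dvd (by omega) hpm
  omega

/-- `(k choose s)` is prime to `Q` -/
theorem Adm.coprime_choose {k E Q s : ℕ} (h : Adm k E) (hQ : ∀ p : ℕ, p.Prime → p ∣ Q → p ∣ E)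
    (hsk : s ≤ k) : Nat.Coprime (k.choose s) Q := by
  apply Nat.coprime_of_dvd
  intro p hp hpm hpQ
  have h1 := h.big p hp (hQ p hp hpQ)
  have h2 : p ∣ k.factorial := by
    have := Nat.choose_mul_factorial_mul_factorial hsk
    rw [← this]
    exact Dvd.dvd.mul_right (Dvd.dvd.mul_right hpm _) _
  have h3 := (hp.dvd_factorial).1 h2
  omega

/-- a number prime to `E` is prime to `Q` -/
theorem coprime_of_primes {E Q y : ℕ} (hQ : ∀ p : ℕ, p.Prime → p ∣ Q → p ∣ E)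
    (hy : Nat.Coprime y E) : Nat.Coprime y Q := by
  apply Nat.coprime_of_dvd
  intro p hp hpy hpQ
  exact Nat.Prime.one_lt hp |>.ne' (Nat.eq_one_of_dvd_one (hy ▸ Nat.dvd_gcd hpy (hQ p hp hpQ)))

end Pool.Agent.Lib.MP_570bef_ntV.OF
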