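import Pool.Agent.Lib.MP_570bef_ntV.OF.Defs
import Pool.Agent.Lib.MP_570bef_ntV.OF.Rt

/-!
# Job OF/GsM: second moment of the unit sums

S(a) = sum_{x in range q, (x,q)=1} e(a x^k/q).
Statement: sum_{a in range q} |S(a)|^2 ≤ q * |W| * k^(om q), W = the units in range q.
Proof. |S(a)|^2 = sum_{x,y in W} e(a (x^k - y^k)/q); sum over a in range q: orthogonality
(sum_{a in range q} e(a m/q) = q if q | m, 0 otherwise, m an integer: geometric sum, `D_mul` of Expo, `e_eq_one_iff`), so the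
left side is q * #{(x,y) in W^2 : x^k = y^k mod q}, and for fixed x there are at most k^(om q) such y by `roots_le` (c = x^k).
-/

set_option autoImplicit false

open Finset Real
open Pool.Agent.Lib.MP_2a816b_nt (e nn D norm_e e_add e_int e_nat e_add_int e_zero norm_D_mul_nn)

namespace Pool.Agent.Lib.MP_570bef_ntV.OF

private theorem GsM_orth {q : ℕ} (hq : 1 ≤ q) (u v : ℕ) :
    D q (((u : ℝ) - (v : ℝ)) / q) = if v ≡ u [MOD q] then (q : ℂ) else 0 := by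
  have hq1 : (1 : ℝ) ≤ (q : ℝ) := by exact_mod_cast hq
  have hq0 : (q : ℝ) ≠ 0 := by positivity
  split_ifs with h
  · obtain ⟨m, hm⟩ := Nat.modEq_iff_dvd.1 h
    have h2 : ((u : ℝ) - (v : ℝ)) / q = (m : ℝ) := by
      rw [div_eq_iff hq0]
      have h3 : (((u : ℤ) - v : ℤ) : ℝ) = (((q : ℤ) * m : ℤ) : ℝ) := by rw [hm]
      push_cast at h3
      rw [h3, mul_comm]
    unfold D
    rw [h2]
    have h3 : ∀ a ∈ range q, e ((a : ℝ) * (m : ℝ)) = 1 := by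
      intro a _
      have h4 : (a : ℝ) * (m : ℝ) = (((a : ℤ) * m : ℤ) : ℝ) := by push_cast; ring
      rw [h4, e_int]
    rw [sum_congr rfl h3, sum_const, card_range, nsmul_eq_mul, mul_one]
  · have h1 : e (((u : ℝ) - (v : ℝ)) / q) ≠ 1 := by
      intro h2
      obtain ⟨m, hm⟩ := (Pool.Agent.Lib.MP_2a816b_nt.e_eq_one_iff _).1 h2
      apply h
      rw [div_eq_iff hq0] at hm
      apply Nat.modEq_iff_dvd.2
      refine ⟨m, ?_⟩
      have h3 : (((u : ℤ) - v : ℤ) : ℝ) = (((q : ℤ) * m : ℤ) : ℝ) := by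
        push_cast
        rw [hm, mul_comm]
      exact_mod_cast h3
    have h3 := Pool.Agent.Lib.MP_2a816b_nt.D_mul q (((u : ℝ) - (v : ℝ)) / q)
    have h4 : e ((q : ℝ) * (((u : ℝ) - (v : ℝ)) / q)) = 1 := by
      have h5 : (q : ℝ) * (((u : ℝ) - (v : ℝ)) / q) = (((u : ℤ) - v : ℤ) : ℝ) := by
        rw [mul_div_cancel₀ _ hq0]
        push_cast
        ring
      rw [h5, e_int]
    rw [h4, sub_self] at h3
    rcases mul_eq_zero.1 h3 with h5 | h5
    · exact h5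
    · exact absurd (sub_eq_zero.1 h5) h1

private theorem GsM_sq (k q a : ℕ) (W : Finset ℕ) :
    ((‖∑ x ∈ W, e ((a : ℝ) * (x : ℝ) ^ k / q)‖ ^ 2 : ℝ) : ℂ) =
      ∑ x ∈ W, ∑ y ∈ W, e ((a : ℝ) * ((((x ^ k : ℕ) : ℝ) - ((y ^ k : ℕ) : ℝ)) / q)) := by
  have h1 : ((‖∑ x ∈ W, e ((a : ℝ) * (x : ℝ) ^ k / q)‖ ^ 2 : ℝ) : ℂ) =
      (∑ x ∈ W, e ((a : ℝ) * (x : ℝ) ^ k / q)) *
        (starRingEnd ℂ) (∑ x ∈ W, e ((a : ℝ) * (x : ℝ) ^ k / q)) := by
    rw [Complex.mul_conj, Complex.normSq_eq_norm_sq]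
  rw [h1, map_sum, sum_mul_sum]
  refine sum_congr rfl fun x _ => sum_congr rfl fun y _ => ?_
  rw [Pool.Agent.Lib.MP_2a816b_nt.conj_e, ← e_add]
  congr 1
  push_cast
  ring

private theorem GsM_eq {k q : ℕ} (hq : 1 ≤ q) (W : Finset ℕ) :
    ∑ a ∈ range q, ‖∑ x ∈ W, e ((a : ℝ) * (x : ℝ) ^ k / q)‖ ^ 2 =
      ∑ x ∈ W, (q : ℝ) * ((W.filter fun y => y ^ k ≡ x ^ k [MOD q]).card : ℝ) := by
  apply Complex.ofReal_injective
  rw [Complex.ofReal_sum, Complex.ofReal_sum, sum_congr rfl (fun a _ => GsM_sq k q a W), sum_comm]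
  refine sum_congr rfl fun x _ => ?_
  rw [sum_comm]
  have h1 : ∀ y ∈ W, ∑ a ∈ range q, e ((a : ℝ) * ((((x ^ k : ℕ) : ℝ) - ((y ^ k : ℕ) : ℝ)) / q)) =
      if y ^ k ≡ x ^ k [MOD q] then (q : ℂ) else 0 := by
    intro y _
    exact GsM_orth hq (x ^ k) (y ^ k)
  rw [sum_congr rfl h1, ← sum_filter, sum_const, nsmul_eq_mul]
  push_cast
  ring

theorem moment_le (k q : ℕ) (hk : 1 ≤ k) (hq : 1 ≤ q) (hbig : ∀ p : ℕ, p.Prime → p ∣ q → k < p) :
    ∑ a ∈ range q, ‖∑ x ∈ (range q).filter (fun x => Nat.Coprime x q),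
        e ((a : ℝ) * (x : ℝ) ^ k / q)‖ ^ 2 ≤
      (q : ℝ) * ((range q).filter (fun x => Nat.Coprime x q)).card * (k : ℝ) ^ om q := by
  refine (GsM_eq hq _).le.trans ?_
  have h1 : ∀ x ∈ (range q).filter (fun x => Nat.Coprime x q),
      (q : ℝ) * ((((range q).filter (fun x => Nat.Coprime x q)).filter
        fun y => y ^ k ≡ x ^ k [MOD q]).card : ℝ) ≤ (q : ℝ) * (k : ℝ) ^ om q := by
    intro x _
    have h2 := roots_le k q hk hq hbig (x ^ k)
    rw [← filter_filter] at h2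
    refine mul_le_mul_of_nonneg_left ?_ (Nat.cast_nonneg q)
    exact_mod_cast h2
  refine (sum_le_sum h1).trans ?_
  rw [sum_const, nsmul_eq_mul]
  exact le_of_eq (by ring)

end Pool.Agent.Lib.MP_570bef_ntV.OF
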