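import Pool.Agent.Lib.MP_570bef_ntV.OF.Defs
import Pool.Agent.Lib.MP_570bef_ntV.OF.Rt
import Pool.Agent.Lib.MP_570bef_ntV.OF.GsM

/-!
# Job OF/GsA: the bound k^(om q) sqrt q for the unit sum

Let W = units in range q, S(a) = sum_{x in W} e(a x^k/q) (a an integer; it depends only on a mod q).
1. For c in W: S(n c^k) = S(n) (the map x ↦ c x mod q permutes W; k-th powers: (c x mod q)^k = c^k x^k mod q).
2. Let H = image of c ↦ (n mod q) * c^k mod q (a number in range q) on W. Since n is a unit mod q, two c with the same image have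
   the same c^k mod q, so by `roots_le` each fibre has at most k^(om q) elements: |W| ≤ k^(om q) |H|
   (`Finset.card_le_mul_card_image`).
3. For h in H: |S(h)| = |S(n)|. So |H| |S(n)|^2 = sum_{h in H} |S(h)|^2 ≤ sum_{a in range q} |S(a)|^2 ≤ q |W| k^(om q)
   ≤ q k^(2 om q) |H| by `moment_le`; H is nonempty (W contains 1 mod q, q ≥ 1; for q = 1, W = {0}).
4. |S(n)|^2 ≤ q k^(2 om q); take square roots (`Real.le_sqrt`, `abs_le_of_sq_le`...).
-/

set_option autoImplicit false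

open Finset Real
open Pool.Agent.Lib.MP_2a816b_nt (e nn D norm_e e_add e_int e_nat e_add_int e_zero norm_D_mul_nn)

namespace Pool.Agent.Lib.MP_570bef_ntV.OF

private theorem GsA_congr (q : ℕ) (hq : 1 ≤ q) (m m' : ℤ) (h : (q : ℤ) ∣ m - m') :
    e ((m : ℝ) / q) = e ((m' : ℝ) / q) := by
  obtain ⟨t, ht⟩ := h
  have hq0 : (q : ℝ) ≠ 0 := by
    have : (q : ℕ) ≠ 0 := by omega
    exact_mod_cast this
  have h1 : (m : ℝ) = (m' : ℝ) + (q : ℝ) * (t : ℝ) := by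
    have : m = m' + (q : ℤ) * t := by linarith
    rw [this]
    push_cast
    ring
  have h2 : (m : ℝ) / q = (m' : ℝ) / q + (t : ℝ) := by
    rw [h1]
    field_simp
  rw [h2, e_add_int]

private theorem GsA_unit (q c x : ℕ) (hc : Nat.Coprime c q) (hx : Nat.Coprime x q) :
    Nat.Coprime (c * x % q) q := by
  have h1 : Nat.Coprime (c * x) q := Nat.Coprime.mul_left hc hx
  unfold Nat.Coprime at h1 ⊢
  rw [← h1, Nat.gcd_comm (c * x) q, Nat.gcd_rec q (c * x)]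

private theorem GsA_perm (q c : ℕ) (hq : 1 ≤ q) (hc : Nat.Coprime c q) (f : ℕ → ℂ) :
    ∑ x ∈ (range q).filter (fun x => Nat.Coprime x q), f (c * x % q) =
      ∑ x ∈ (range q).filter (fun x => Nat.Coprime x q), f x := by
  classical
  have hmaps : ∀ x ∈ (range q).filter (fun x => Nat.Coprime x q),
      c * x % q ∈ (range q).filter (fun x => Nat.Coprime x q) := by
    intro x hx
    obtain ⟨-, h2⟩ := mem_filter.1 hx
    exact mem_filter.2 ⟨mem_range.2 (Nat.mod_lt _ (by omega)), GsA_unit q c x hc h2⟩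
  have hinj : Set.InjOn (fun x => c * x % q)
      ((range q).filter (fun x => Nat.Coprime x q) : Finset ℕ) := by
    intro x hx y hy hxy
    have hx' := mem_range.1 (mem_filter.1 (mem_coe.1 hx)).1
    have hy' := mem_range.1 (mem_filter.1 (mem_coe.1 hy)).1
    have h1 : c * x ≡ c * y [MOD q] := hxy
    have h2 : x ≡ y [MOD q] := Nat.ModEq.cancel_left_of_coprime hc.symm h1
    have h3 : x % q = y % q := h2
    rwa [Nat.mod_eq_of_lt hx', Nat.mod_eq_of_lt hy'] at h3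
  have himg : ((range q).filter (fun x => Nat.Coprime x q)).image (fun x => c * x % q) =
      (range q).filter (fun x => Nat.Coprime x q) :=
    eq_of_subset_of_card_le (image_subset_iff.2 hmaps) (by rw [card_image_of_injOn hinj])
  rw [← sum_image hinj, himg]

private theorem GsA_shift (k q c : ℕ) (n : ℤ) (hq : 1 ≤ q) (hc : Nat.Coprime c q) (h : ℤ)
    (hh : (q : ℤ) ∣ h - n * (c : ℤ) ^ k) :
    ∑ x ∈ (range q).filter (fun x => Nat.Coprime x q), e ((h : ℝ) * (x : ℝ) ^ k / q) =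
      ∑ x ∈ (range q).filter (fun x => Nat.Coprime x q), e ((n : ℝ) * (x : ℝ) ^ k / q) := by
  rw [← GsA_perm q c hq hc (fun x => e ((n : ℝ) * (x : ℝ) ^ k / q))]
  apply sum_congr rfl
  intro x _
  have h1 := GsA_congr q hq (h * (x : ℤ) ^ k) (n * ((c * x % q : ℕ) : ℤ) ^ k) (by
    have hm : ((c * x % q : ℕ) : ℤ) ≡ (c : ℤ) * (x : ℤ) [ZMOD (q : ℤ)] := by
      push_cast
      exact Int.mod_modEq _ _
    have hp : n * ((c * x % q : ℕ) : ℤ) ^ k ≡ n * ((c : ℤ) * (x : ℤ)) ^ k [ZMOD (q : ℤ)] :=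
      (hm.pow k).mul_left n
    have h2 : (q : ℤ) ∣ n * ((c : ℤ) * (x : ℤ)) ^ k - n * ((c * x % q : ℕ) : ℤ) ^ k :=
      Int.ModEq.dvd hp
    have h3 : (q : ℤ) ∣ (h - n * (c : ℤ) ^ k) * (x : ℤ) ^ k := Dvd.dvd.mul_right hh _
    have h4 := dvd_add h3 h2
    have h5 : (h - n * (c : ℤ) ^ k) * (x : ℤ) ^ k +
        (n * ((c : ℤ) * (x : ℤ)) ^ k - n * ((c * x % q : ℕ) : ℤ) ^ k) =
        h * (x : ℤ) ^ k - n * ((c * x % q : ℕ) : ℤ) ^ k := by
      rw [mul_pow]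
      ring
    rwa [h5] at h4)
  push_cast at h1
  exact h1

theorem unit_sum_le (k q : ℕ) (n : ℤ) (hk : 1 ≤ k) (hq : 1 ≤ q)
    (hbig : ∀ p : ℕ, p.Prime → p ∣ q → k < p) (hn : IsCoprime n (q : ℤ)) :
    ‖∑ x ∈ (range q).filter (fun x => Nat.Coprime x q), e ((n : ℝ) * (x : ℝ) ^ k / q)‖ ≤
      (k : ℝ) ^ om q * Real.sqrt q := by
  classical
  set W : Finset ℕ := (range q).filter (fun x => Nat.Coprime x q) with hW
  set T : ℝ := ‖∑ x ∈ W, e ((n : ℝ) * (x : ℝ) ^ k / q)‖ with hT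
  obtain ⟨n0, hn0⟩ : ∃ n0 : ℕ, (n0 : ℤ) = n % (q : ℤ) := by
    have h0 : 0 ≤ n % (q : ℤ) := Int.emod_nonneg _ (by omega)
    exact ⟨(n % (q : ℤ)).toNat, Int.toNat_of_nonneg h0⟩
  have hn0q : (q : ℤ) ∣ (n0 : ℤ) - n := by
    rw [hn0]
    exact Int.dvd_sub_self_of_emod_eq rfl
  have hn0c : Nat.Coprime n0 q := by
    rw [← Nat.isCoprime_iff_coprime]
    obtain ⟨t, ht⟩ := hn0q
    have h1 : (n0 : ℤ) = n + (q : ℤ) * t := by linarith
    rw [h1]
    exact IsCoprime.add_mul_left_left hn t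
  set g : ℕ → ℕ := fun c => n0 * c ^ k % q with hg
  have hfib : ∀ h ∈ W.image g, (W.filter (fun c => g c = h)).card ≤ k ^ om q := by
    intro h hh
    obtain ⟨c0, hc0, rfl⟩ := mem_image.1 hh
    refine le_trans (card_le_card ?_) (roots_le k q hk hq hbig (c0 ^ k))
    intro c hc
    obtain ⟨hcW, hcg⟩ := mem_filter.1 hc
    obtain ⟨h1, h2⟩ := mem_filter.1 hcW
    have h3 : n0 * c ^ k ≡ n0 * c0 ^ k [MOD q] := hcg
    exact mem_filter.2 ⟨h1, h2, Nat.ModEq.cancel_left_of_coprime hn0c.symm h3⟩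
  have hcard : W.card ≤ k ^ om q * (W.image g).card := card_le_mul_card_image W _ hfib
  have hnorm : ∀ h ∈ W.image g, ‖∑ x ∈ W, e ((h : ℝ) * (x : ℝ) ^ k / q)‖ = T := by
    intro h hh
    obtain ⟨c, hc, rfl⟩ := mem_image.1 hh
    obtain ⟨-, h2⟩ := mem_filter.1 hc
    have h3 := GsA_shift k q c n hq h2 ((g c : ℕ) : ℤ) (by
      have hm : ((g c : ℕ) : ℤ) ≡ (n0 : ℤ) * (c : ℤ) ^ k [ZMOD (q : ℤ)] := by
        rw [hg]
        push_cast
        exact Int.mod_modEq _ _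
      have h4 : (q : ℤ) ∣ (n0 : ℤ) * (c : ℤ) ^ k - ((g c : ℕ) : ℤ) := Int.ModEq.dvd hm
      have h5 : (q : ℤ) ∣ ((n0 : ℤ) - n) * (c : ℤ) ^ k := Dvd.dvd.mul_right hn0q _
      have h6 := dvd_sub h5 h4
      have h7 : ((n0 : ℤ) - n) * (c : ℤ) ^ k - ((n0 : ℤ) * (c : ℤ) ^ k - ((g c : ℕ) : ℤ)) =
          ((g c : ℕ) : ℤ) - n * (c : ℤ) ^ k := by ring
      rwa [h7] at h6)
    rw [hT, ← h3]
    push_cast
    rfl
  have hsub : W.image g ⊆ range q := by
    intro h hh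
    obtain ⟨c, hc, rfl⟩ := mem_image.1 hh
    exact mem_range.2 (Nat.mod_lt _ (by omega))
  have hWne : W.Nonempty := by
    refine ⟨1 % q, mem_filter.2 ⟨mem_range.2 (Nat.mod_lt _ (by omega)), ?_⟩⟩
    have h1 := GsA_unit q 1 1 (Nat.coprime_one_left q) (Nat.coprime_one_left q)
    rwa [one_mul] at h1
  have hHpos : 0 < (W.image g).card := card_pos.2 (hWne.image g)
  have hHpos' : (0 : ℝ) < ((W.image g).card : ℝ) := by exact_mod_cast hHpos
  have hmom := moment_le k q hk hq hbig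
  rw [← hW] at hmom
  have hsum : ((W.image g).card : ℝ) * T ^ 2 ≤
      (q : ℝ) * (W.card : ℝ) * (k : ℝ) ^ om q := by
    refine le_trans (le_of_eq ?_) (le_trans (sum_le_sum_of_subset_of_nonneg hsub
      (fun a _ _ => sq_nonneg ‖∑ x ∈ W, e ((a : ℝ) * (x : ℝ) ^ k / q)‖)) hmom)
    rw [sum_congr rfl (fun h hh => by rw [hnorm h hh]), sum_const, nsmul_eq_mul]
  have hcard' : (W.card : ℝ) ≤ (k : ℝ) ^ om q * ((W.image g).card : ℝ) := by exact_mod_cast hcard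
  have hK : (0 : ℝ) ≤ (k : ℝ) ^ om q := by positivity
  have hq0 : (0 : ℝ) ≤ (q : ℝ) := Nat.cast_nonneg _
  have h1 : ((W.image g).card : ℝ) * T ^ 2 ≤
      ((W.image g).card : ℝ) * ((q : ℝ) * ((k : ℝ) ^ om q) ^ 2) := by
    have h2 : (q : ℝ) * (W.card : ℝ) * (k : ℝ) ^ om q ≤
        (q : ℝ) * ((k : ℝ) ^ om q * ((W.image g).card : ℝ)) * (k : ℝ) ^ om q := by gcongr
    calc ((W.image g).card : ℝ) * T ^ 2 ≤ _ := hsum
      _ ≤ _ := h2
      _ = _ := by ring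
  have h3 : T ^ 2 ≤ (q : ℝ) * ((k : ℝ) ^ om q) ^ 2 := le_of_mul_le_mul_left h1 hHpos'
  have h4 : T ^ 2 ≤ ((k : ℝ) ^ om q * Real.sqrt q) ^ 2 := by
    rw [mul_pow, Real.sq_sqrt hq0]
    linarith
  exact (pow_le_pow_iff_left₀ (norm_nonneg _) (by positivity) two_ne_zero).1 h4

end Pool.Agent.Lib.MP_570bef_ntV.OF
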