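import Pool.Agent.Lib.MP_570bef_ntV.OF.Defs
import Pool.Agent.Lib.MP_570bef_ntV.OF.GsA

/-!
# Job OF/GsB: the complete sum modulo E, q | E, E squarefree

E = q d with (q, d) = 1 (E squarefree: `Nat.squarefree_mul_iff`/`Nat.coprime_of_squarefree_mul`).
Bijection y ↦ (y mod q, y mod d) from range E to range q ×ˢ range d (`Nat.chineseRemainder` or a counting argument),
(y,E)=1 iff (y mod q, q) = 1 and (y mod d, d) = 1, and e(n y^k/q) depends only on y mod q. So the sum is
(number of units mod d) * (unit sum mod q), of norm ≤ d * k^(om q) sqrt q ≤ k^(om E) E/sqrt q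
(`unit_sum_le`; om q ≤ om E since primeFactors are monotone under division; d = E/q, sqrt q * sqrt q = q).
-/

set_option autoImplicit false

open Finset Real
open Pool.Agent.Lib.MP_2a816b_nt (e nn D norm_e e_add e_int e_nat e_add_int e_zero norm_D_mul_nn)

namespace Pool.Agent.Lib.MP_570bef_ntV.OF

private theorem GsB_per (k q : ℕ) (n : ℤ) (hq : 0 < q) (y : ℕ) :
    e ((n : ℝ) * (y : ℝ) ^ k / q) = e ((n : ℝ) * ((y % q : ℕ) : ℝ) ^ k / q) := by
  have h1 : ((y % q : ℕ) : ℤ) ≡ (y : ℤ) [ZMOD (q : ℤ)] := by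
    rw [Int.natCast_mod]
    exact Int.mod_modEq _ _
  have h2 : n * ((y % q : ℕ) : ℤ) ^ k ≡ n * (y : ℤ) ^ k [ZMOD (q : ℤ)] := (h1.pow k).mul_left n
  obtain ⟨m, hm⟩ := h2.dvd
  have hq' : (q : ℝ) ≠ 0 := by exact_mod_cast hq.ne'
  have h3 : (n : ℝ) * (y : ℝ) ^ k = (n : ℝ) * ((y % q : ℕ) : ℝ) ^ k + (q : ℝ) * (m : ℝ) := by
    have h4 : n * (y : ℤ) ^ k = n * ((y % q : ℕ) : ℤ) ^ k + (q : ℤ) * m := by linarith
    generalize y % q = r at h4
    have h5 : ((n * (y : ℤ) ^ k : ℤ) : ℝ) = ((n * (r : ℤ) ^ k + (q : ℤ) * m : ℤ) : ℝ) := congrArg _ h4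
    rw [Int.cast_add, Int.cast_mul, Int.cast_mul, Int.cast_mul, Int.cast_pow, Int.cast_pow, Int.cast_natCast, Int.cast_natCast, Int.cast_natCast] at h5
    exact h5
  rw [h3, add_div, mul_div_cancel_left₀ _ hq', e_add_int]

private theorem GsB_cop {q y : ℕ} : Nat.Coprime (y % q) q ↔ Nat.Coprime y q := by
  unfold Nat.Coprime
  rw [← Nat.gcd_rec, Nat.gcd_comm]

private theorem GsB_sum (q d : ℕ) (hq : 0 < q) (hd : 0 < d) (hc : Nat.Coprime q d) (f : ℕ → ℂ) (hf : ∀ y, f y = f (y % q)) :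
    ∑ y ∈ (range (q * d)).filter (fun y => Nat.Coprime y (q * d)), f y =
      (((range d).filter (fun z => Nat.Coprime z d)).card : ℂ) * ∑ x ∈ (range q).filter (fun x => Nat.Coprime x q), f x := by
  have h1 : ∑ y ∈ (range (q * d)).filter (fun y => Nat.Coprime y (q * d)), f y =
      ∑ w ∈ ((range q).filter (fun x => Nat.Coprime x q)) ×ˢ ((range d).filter (fun z => Nat.Coprime z d)), f w.1 := by
    refine Finset.sum_bij (fun y _ => (y % q, y % d)) ?_ ?_ ?_ ?_
    · intro y hy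
      obtain ⟨-, h2⟩ := mem_filter.1 hy
      rw [mem_product, mem_filter, mem_filter, mem_range, mem_range]
      exact ⟨⟨Nat.mod_lt _ hq, GsB_cop.2 (Nat.Coprime.coprime_mul_right_right h2)⟩,
        ⟨Nat.mod_lt _ hd, GsB_cop.2 (Nat.Coprime.coprime_mul_left_right h2)⟩⟩
    · intro y hy y' hy' h
      obtain ⟨h2, h3⟩ := Prod.mk.inj h
      have h4 : y ≡ y' [MOD q * d] := (Nat.modEq_and_modEq_iff_modEq_mul hc).1 ⟨h2, h3⟩
      exact Nat.ModEq.eq_of_lt_of_lt h4 (mem_range.1 (mem_filter.1 hy).1) (mem_range.1 (mem_filter.1 hy').1)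
    · rintro ⟨x, z⟩ h
      obtain ⟨h2, h3⟩ := mem_product.1 h
      obtain ⟨h4, h5⟩ := mem_filter.1 h2
      obtain ⟨h6, h7⟩ := mem_filter.1 h3
      have h4' : x < q := mem_range.1 h4
      have h6' : z < d := mem_range.1 h6
      have h5' : Nat.Coprime x q := h5
      have h7' : Nat.Coprime z d := h7
      have hx : (Nat.chineseRemainder hc x z : ℕ) % q = x := by
        have := (Nat.chineseRemainder hc x z).2.1
        unfold Nat.ModEq at this
        rw [this, Nat.mod_eq_of_lt h4']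
      have hz : (Nat.chineseRemainder hc x z : ℕ) % d = z := by
        have := (Nat.chineseRemainder hc x z).2.2
        unfold Nat.ModEq at this
        rw [this, Nat.mod_eq_of_lt h6']
      refine ⟨Nat.chineseRemainder hc x z, ?_, ?_⟩
      · rw [mem_filter, mem_range]
        refine ⟨Nat.chineseRemainder_lt_mul hc x z hq.ne' hd.ne', Nat.Coprime.mul_right ?_ ?_⟩
        · rw [← GsB_cop, hx]
          exact h5'
        · rw [← GsB_cop, hz]
          exact h7'
      · rw [hx, hz]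
    · intro y _
      exact hf y
  rw [h1, sum_product, mul_sum]
  refine sum_congr rfl fun x _ => ?_
  show ∑ _y ∈ (range d).filter (fun z => Nat.Coprime z d), f x = _
  rw [sum_const, nsmul_eq_mul]

theorem full_sum_le (k E q : ℕ) (n : ℤ) (hk : 1 ≤ k) (hA : Adm k E) (hq : q ∣ E)
    (hn : IsCoprime n (q : ℤ)) :
    ‖∑ y ∈ (range E).filter (fun y => Nat.Coprime y E), e ((n : ℝ) * (y : ℝ) ^ k / q)‖ ≤
      (k : ℝ) ^ om E * E / Real.sqrt q := by
  have hE := hA.pos
  obtain ⟨d, hd⟩ := hq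
  have hq0 : 0 < q := Nat.pos_of_ne_zero fun h => by rw [hd, h, Nat.zero_mul] at hE; exact lt_irrefl 0 hE
  have hd0 : 0 < d := Nat.pos_of_ne_zero fun h => by rw [hd, h, Nat.mul_zero] at hE; exact lt_irrefl 0 hE
  have hsq : Squarefree (q * d) := hd ▸ hA.sqf
  have hc : Nat.Coprime q d := Nat.coprime_of_squarefree_mul hsq
  have hqE : q ∣ E := ⟨d, hd⟩
  have hU := unit_sum_le k q n hk hq0 (fun p hp hpq => hA.big p hp (hpq.trans hqE)) hn
  have hom : om q ≤ om E := by
    unfold om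
    exact card_le_card (Nat.primeFactors_mono hqE hE.ne')
  have hk1 : (1 : ℝ) ≤ k := by exact_mod_cast hk
  have hqr : (0 : ℝ) < q := by exact_mod_cast hq0
  have hs : 0 < Real.sqrt q := Real.sqrt_pos.2 hqr
  rw [hd, GsB_sum q d hq0 hd0 hc (fun y => e ((n : ℝ) * (y : ℝ) ^ k / q)) (fun y => GsB_per k q n hq0 y), norm_mul,
    Complex.norm_natCast, ← hd]
  have hcard : ((((range d).filter (fun z => Nat.Coprime z d)).card : ℕ) : ℝ) ≤ d := by
    exact_mod_cast (card_filter_le _ _).trans (by rw [card_range])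
  calc (((range d).filter (fun z => Nat.Coprime z d)).card : ℝ) *
        ‖∑ x ∈ (range q).filter (fun x => Nat.Coprime x q), e ((n : ℝ) * (x : ℝ) ^ k / q)‖
      ≤ (d : ℝ) * ((k : ℝ) ^ om q * Real.sqrt q) := mul_le_mul hcard hU (norm_nonneg _) (by positivity)
    _ ≤ (d : ℝ) * ((k : ℝ) ^ om E * Real.sqrt q) := by
        refine mul_le_mul_of_nonneg_left (mul_le_mul_of_nonneg_right (pow_le_pow_right₀ hk1 hom) hs.le) (by positivity)
    _ = (k : ℝ) ^ om E * E / Real.sqrt q := by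
        rw [eq_div_iff hs.ne', hd]
        push_cast
        have h1 : Real.sqrt q * Real.sqrt q = q := Real.mul_self_sqrt hqr.le
        calc (d : ℝ) * ((k : ℝ) ^ om (q * d) * Real.sqrt q) * Real.sqrt q = (k : ℝ) ^ om (q * d) * ((Real.sqrt q * Real.sqrt q) * d) := by ring
          _ = _ := by rw [h1]

end Pool.Agent.Lib.MP_570bef_ntV.OF
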