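import Pool.Agent.Lib.MP_570bef_ntV.OF.Defs
import Pool.Agent.Lib.MP_570bef_ntV.OF.GsB

/-!
# Job OF/GsC: theorem (A), squarefree denominators

G(y) = e(n y^k/q) if (y,E)=1, else 0, is periodic mod E (q | E). Write Y = E t + s, s < E. Then
TS = sum_{y in Ioc 0 Y} G(y) = t * sum_{y in range E} G(y) + (s terms of norm ≤ 1), t ≤ Y/E,
and `full_sum_le`: |TS| ≤ (Y/E) * k^(om E) E/sqrt q + E.
-/

set_option autoImplicit false

open Finset Real
open Pool.Agent.Lib.MP_2a816b_nt (e nn D norm_e e_add e_int e_nat e_add_int e_zero norm_D_mul_nn)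

namespace Pool.Agent.Lib.MP_570bef_ntV.OF

/-- the periodic summand, shifted by one -/
noncomputable def GsC_G (k : ℕ) (n : ℤ) (q E y : ℕ) : ℂ :=
  if Nat.Coprime y E then e ((n : ℝ) * (y : ℝ) ^ k / q) else 0

theorem GsC_norm (k : ℕ) (n : ℤ) (q E y : ℕ) : ‖GsC_G k n q E y‖ ≤ 1 := by
  unfold GsC_G
  split_ifs
  · rw [norm_e]
  · simp

theorem GsC_per (k E q y : ℕ) (n : ℤ) (hq : q ∣ E) (hq0 : 0 < q) :
    GsC_G k n q E (y + E) = GsC_G k n q E y := by
  unfold GsC_G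
  have h1 : Nat.Coprime (y + E) E ↔ Nat.Coprime y E := by
    simp
  have hq' : (q : ℝ) ≠ 0 := by exact_mod_cast hq0.ne'
  have h2 : e ((n : ℝ) * ((y + E : ℕ) : ℝ) ^ k / q) = e ((n : ℝ) * (y : ℝ) ^ k / q) := by
    have h3 : (q : ℤ) ∣ ((y + E : ℕ) : ℤ) ^ k - (y : ℤ) ^ k := by
      refine dvd_trans ?_ (sub_dvd_pow_sub_pow _ _ k)
      push_cast
      rw [add_sub_cancel_left]
      exact_mod_cast hq
    obtain ⟨m, hm⟩ := h3
    have h4 : ((y + E : ℕ) : ℝ) ^ k = (y : ℝ) ^ k + q * m := by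
      have h5 : ((y + E : ℕ) : ℤ) ^ k = (y : ℤ) ^ k + q * m := by linarith
      exact_mod_cast h5
    rw [h4]
    have h6 : (n : ℝ) * ((y : ℝ) ^ k + q * m) / q = (n : ℝ) * (y : ℝ) ^ k / q + ((n * m : ℤ) : ℝ) := by
      push_cast
      field_simp
    rw [h6, e_add_int]
  simp only [h1, h2]

theorem GsC_mul (k E q : ℕ) (n : ℤ) (hq : q ∣ E) (hq0 : 0 < q) (t y : ℕ) :
    GsC_G k n q E (E * t + y) = GsC_G k n q E y := by
  induction t with
  | zero => simp
  | succ t ih =>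
    have : E * (t + 1) + y = (E * t + y) + E := by ring
    rw [this, GsC_per k E q _ n hq hq0, ih]

theorem GsC_blocks (k E q : ℕ) (n : ℤ) (hq : q ∣ E) (hq0 : 0 < q) (t : ℕ) :
    ∑ y ∈ range (E * t), GsC_G k n q E (y + 1) =
      t * ∑ y ∈ range E, GsC_G k n q E (y + 1) := by
  induction t with
  | zero => simp
  | succ t ih =>
    have h1 : E * (t + 1) = E * t + E := by ring
    rw [h1, Finset.sum_range_add, ih]
    have h2 : ∀ y ∈ range E, GsC_G k n q E (E * t + y + 1) = GsC_G k n q E (y + 1) := by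
      intro y _
      rw [add_assoc]
      exact GsC_mul k E q n hq hq0 t (y + 1)
    rw [Finset.sum_congr rfl h2]
    push_cast
    ring

theorem GsC_shift (k E q : ℕ) (n : ℤ) (hq : q ∣ E) (hq0 : 0 < q) :
    ∑ y ∈ range E, GsC_G k n q E (y + 1) = ∑ y ∈ range E, GsC_G k n q E y := by
  have h1 := Finset.sum_range_succ (fun y => GsC_G k n q E y) E
  have h2 := Finset.sum_range_succ' (fun y => GsC_G k n q E y) E
  have h3 := GsC_per k E q 0 n hq hq0
  rw [zero_add] at h3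
  rw [h1] at h2
  simp only [h3] at h2
  exact (add_right_cancel h2).symm

theorem TS_sqf (k E q Y : ℕ) (n : ℤ) (hk : 1 ≤ k) (hA : Adm k E) (hq : q ∣ E)
    (hn : IsCoprime n (q : ℤ)) :
    ‖TS k n q E Y‖ ≤ (k : ℝ) ^ om E * Y / Real.sqrt q + E := by
  have hE : 0 < E := hA.pos
  have hq0 : 0 < q := Nat.pos_of_dvd_of_pos hq hE
  have hTS : TS k n q E Y = ∑ y ∈ range Y, GsC_G k n q E (y + 1) := by
    unfold TS cop
    rw [Finset.sum_filter]
    have h1 : ∑ y ∈ range Y, GsC_G k n q E (y + 1) = ∑ y ∈ Ico 1 (Y + 1), GsC_G k n q E y := by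
      rw [Finset.sum_Ico_eq_sum_range]
      simp only [Nat.add_sub_cancel]
      refine Finset.sum_congr rfl fun y _ => ?_
      rw [add_comm]
    rw [h1]
    have h2 : Icc 1 Y = Ico 1 (Y + 1) := by
      ext y
      simp only [mem_Icc, mem_Ico]
      omega
    rw [h2]
    rfl
  have hdm : Y = E * (Y / E) + Y % E := (Nat.div_add_mod Y E).symm
  have hsum : ∑ y ∈ range Y, GsC_G k n q E (y + 1) =
      (Y / E : ℕ) * ∑ y ∈ range E, GsC_G k n q E y +
        ∑ y ∈ range (Y % E), GsC_G k n q E (E * (Y / E) + y + 1) := by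
    conv_lhs => rw [hdm]
    rw [Finset.sum_range_add, GsC_blocks k E q n hq hq0, GsC_shift k E q n hq hq0]
  have hfull : ‖∑ y ∈ range E, GsC_G k n q E y‖ ≤ (k : ℝ) ^ om E * E / Real.sqrt q := by
    have h1 := full_sum_le k E q n hk hA hq hn
    rw [Finset.sum_filter] at h1
    exact h1
  have hrest : ‖∑ y ∈ range (Y % E), GsC_G k n q E (E * (Y / E) + y + 1)‖ ≤ E := by
    refine (norm_sum_le _ _).trans ?_
    refine (Finset.sum_le_sum fun y _ => GsC_norm k n q E _).trans ?_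
    rw [Finset.sum_const, Finset.card_range, nsmul_eq_mul, mul_one]
    exact_mod_cast (Nat.mod_lt Y hE).le
  rw [hTS, hsum]
  refine (norm_add_le _ _).trans (add_le_add ?_ hrest)
  rw [norm_mul, Complex.norm_natCast]
  have hE' : (0 : ℝ) < E := by exact_mod_cast hE
  have hYE : ((Y / E : ℕ) : ℝ) ≤ (Y : ℝ) / E := Nat.cast_div_le
  have hpos : (0 : ℝ) ≤ (k : ℝ) ^ om E * E / Real.sqrt q := by positivity
  calc ((Y / E : ℕ) : ℝ) * ‖∑ y ∈ range E, GsC_G k n q E y‖
      ≤ (Y : ℝ) / E * ((k : ℝ) ^ om E * E / Real.sqrt q) :=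
        mul_le_mul hYE hfull (norm_nonneg _) (by positivity)
    _ = (k : ℝ) ^ om E * Y / Real.sqrt q := by
        field_simp

end Pool.Agent.Lib.MP_570bef_ntV.OF
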