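import Pool.Agent.Lib.MP_570bef_ntV.OF.Defs

/-!
# Job OF/RwA: counting the b with a given denominator

den_count: if M / gcd(b - b', M) = q then M/q = gcd divides b - b' (M = q * gcd), so b' runs in one residue class mod M/q inside
range M: exactly q elements (at most q). (`Int.gcd`, `Int.gcd_dvd_left`; count of a residue class in range M, M = q * (M/q).)
reduce: M = E^k, g = gcd(d, M), q = M/g, n = t (d/g): t y^k d/M = n y^k/q and n is prime to q (d/g prime to M/g, t prime to E).
-/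

set_option autoImplicit false

open Finset Real
open Pool.Agent.Lib.MP_2a816b_nt (e nn D norm_e e_add e_int e_nat e_add_int e_zero norm_D_mul_nn)

namespace Pool.Agent.Lib.MP_570bef_ntV.OF

theorem den_count (M q : ℕ) (hM : 1 ≤ M) (hq : q ∣ M) (b : ℤ) :
    ((range M).filter fun b' : ℕ => M / Int.gcd (b - b') M = q).card ≤ q := by
  obtain ⟨g, hg⟩ := hq
  have hg0 : 0 < g := Nat.pos_of_ne_zero fun h => by rw [h, mul_zero] at hg; omega
  have hq0 : 0 < q := Nat.pos_of_ne_zero fun h => by rw [h, zero_mul] at hg; omega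
  have key : ∀ b' : ℕ, M / Int.gcd (b - b') M = q → (g : ℤ) ∣ b - b' := by
    intro b' hb
    have h1 : Int.gcd (b - b') M ∣ M := by
      have h2 := Int.gcd_dvd_right (b - b') (M : ℤ)
      exact_mod_cast h2
    obtain ⟨c, hc⟩ := h1
    have hG0 : 0 < Int.gcd (b - b') M := Nat.pos_of_ne_zero fun h => by rw [h, zero_mul] at hc; omega
    have h3 : c = q := by
      rw [← hb]
      exact (Nat.div_eq_of_eq_mul_right hG0 hc).symm
    have h4 : Int.gcd (b - b') M = g := by
      have h5 : Int.gcd (b - b') M * q = g * q := by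
        rw [← h3, ← hc, h3, mul_comm g q, ← hg]
      exact Nat.eq_of_mul_eq_mul_right hq0 h5
    rw [← h4]
    exact Int.gcd_dvd_left (b - b') (M : ℤ)
  have hcard : ((range M).filter fun b' : ℕ => M / Int.gcd (b - b') M = q).card ≤
      (range q).card := by
    refine card_le_card_of_injOn (fun b' => b' / g) ?_ ?_
    · intro b' hb'
      rw [mem_coe, mem_filter, mem_range] at hb'
      rw [mem_coe, mem_range]
      change b' / g < q
      rw [Nat.div_lt_iff_lt_mul hg0, ← hg]
      exact hb'.1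
    · intro x hx y hy hxy
      rw [mem_coe, mem_filter] at hx hy
      have h1 := key x hx.2
      have h2 := key y hy.2
      have h3 : (g : ℤ) ∣ (x : ℤ) - y := by
        have h4 := dvd_sub h2 h1
        have e1 : b - (y : ℤ) - (b - x) = (x : ℤ) - y := by ring
        rwa [e1] at h4
      have h5 : x % g = y % g := by
        have h6 : (y : ℤ) ≡ x [ZMOD g] := (Int.modEq_iff_dvd).mpr h3
        have h7 : y ≡ x [MOD g] := by exact_mod_cast h6
        exact h7.symm
      have h8 : x / g = y / g := hxy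
      rw [← Nat.div_add_mod x g, ← Nat.div_add_mod y g, h5, h8]
  rwa [card_range] at hcard

theorem reduce (k E Y : ℕ) (hA : Adm k E) (t : ℕ) (ht : Nat.Coprime t E) (d : ℤ) :
    ∃ n : ℤ, IsCoprime n ((E ^ k / Int.gcd d ((E ^ k : ℕ) : ℤ) : ℕ) : ℤ) ∧
      ∑ y ∈ cop E Y, e ((t : ℝ) * (y : ℝ) ^ k * ((d : ℝ) / (E : ℝ) ^ k)) =
        TS k n (E ^ k / Int.gcd d ((E ^ k : ℕ) : ℤ)) E Y := by
  have hM : 0 < E ^ k := pow_pos hA.pos k
  set M : ℕ := E ^ k with hMdef
  set g : ℕ := Int.gcd d (M : ℤ) with hg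
  have hgM : g ∣ M := by
    have h2 := Int.gcd_dvd_right d (M : ℤ)
    exact_mod_cast h2
  have hg0 : 0 < g := Nat.pos_of_dvd_of_pos hgM hM
  obtain ⟨d', hd'⟩ : (g : ℤ) ∣ d := Int.gcd_dvd_left d (M : ℤ)
  obtain ⟨q, hq⟩ := hgM
  have hqdiv : M / g = q := by rw [hq]; exact Nat.mul_div_cancel_left q hg0
  have hq0 : 0 < q := Nat.pos_of_ne_zero fun h => by rw [h, mul_zero] at hq; omega
  rw [hqdiv]
  have hcop : IsCoprime d' (q : ℤ) := by
    have h1 : Int.gcd d' (q : ℤ) = 1 := by
      have h2 : Int.gcd ((g : ℤ) * d') ((g : ℤ) * q) = g * Int.gcd d' q := by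
        rw [Int.gcd_mul_left, Int.natAbs_natCast]
      have h3 : Int.gcd ((g : ℤ) * d') ((g : ℤ) * q) = g := by
        rw [← hd']
        have h4 : (g : ℤ) * q = (M : ℤ) := by rw [hq]; push_cast; ring
        rw [h4]
      rw [h3] at h2
      have h5 : g * Int.gcd d' q = g * 1 := by rw [← h2, mul_one]
      exact Nat.eq_of_mul_eq_mul_left hg0 h5
    exact Int.isCoprime_iff_gcd_eq_one.mpr h1
  have hcop2 : IsCoprime (t : ℤ) (q : ℤ) := by
    have h1 : Nat.Coprime t q :=
      (Nat.Coprime.pow_right k ht).coprime_dvd_right (Dvd.intro_left g hq.symm)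
    exact Nat.isCoprime_iff_coprime.mpr h1
  refine ⟨t * d', hcop2.mul_left hcop, ?_⟩
  rw [TS]
  refine sum_congr rfl fun y _ => ?_
  congr 1
  have h1 : ((E : ℝ) ^ k) = (g : ℝ) * q := by
    have h2 : ((E ^ k : ℕ) : ℝ) = ((g * q : ℕ) : ℝ) := by rw [← hMdef, hq]
    push_cast at h2
    exact h2
  have h3 : (d : ℝ) = (g : ℝ) * (d' : ℝ) := by
    rw [hd']
    push_cast
    ring
  have hg1 : (g : ℝ) ≠ 0 := by exact_mod_cast hg0.ne'
  have hq1 : (q : ℝ) ≠ 0 := by exact_mod_cast hq0.ne'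
  rw [h1, h3]
  push_cast
  field_simp

end Pool.Agent.Lib.MP_570bef_ntV.OF
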