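import Pool.Agent.Lib.MP_570bef_ntV.OF.Defs
import Pool.Agent.Lib.MP_570bef_ntV.OF.GsC
import Pool.Agent.Lib.MP_570bef_ntV.OF.RwA

/-!
# Job OF/RwB: ROW, the off-diagonal sum of the fibre lemma

K = k^(om E). For b' in B let q(b') = E^k/gcd(b-b', E^k); by `reduce` the inner norm is |TS k n q E Y|.
* q not squarefree: ≤ Y/L (hNS).
* q squarefree (then q | E: `Squarefree.dvd_of_squarefree_of_mul_dvd_mul...`; q | E^k and q squarefree give q | E,
  `UniqueFactorizationMonoid.dvd_pow_iff_dvd_of_squarefree`): `TS_sqf`: ≤ K Y/sqrt q + E. If sqrt q ≥ 2 K L this is ≤ Y/(2L) + Y/(2L) = Y/L (h2).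
* the b' with q squarefree and sqrt q < 2 K L: group by q in E.divisors, at most q of them (`den_count`); their total is
  ≤ sum_{q | E, sqrt q < 2KL} q (K Y/sqrt q + E) ≤ sum (K Y sqrt q + q E) ≤ 2^(om E) (2 K^2 L Y + 4 K^2 L^2 E) ≤ 2^(om E) K^2 (2 Y L + 2 Y L)
  (number of divisors of the squarefree E = 2^(om E), `Nat.card_divisors`/`ArithmeticFunction.cardDistinctFactors`,
  or sum over the powerset of primeFactors; 2 E L ≤ Y), K^2 2^(om E) = (2 k^2)^(om E).
-/

set_option autoImplicit false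

open Finset Real
open Pool.Agent.Lib.MP_2a816b_nt (e nn D norm_e e_add e_int e_nat e_add_int e_zero norm_D_mul_nn)

namespace Pool.Agent.Lib.MP_570bef_ntV.OF

private theorem RwB_divisors {E : ℕ} (h : Squarefree E) : E.divisors.card ≤ 2 ^ om E := by
  unfold om
  rw [← card_powerset]
  refine card_le_card_of_injOn (fun q => q.primeFactors) ?_ ?_
  · intro q hq
    have hq' := Nat.mem_divisors.1 (mem_coe.1 hq)
    exact mem_coe.2 (mem_powerset.2 (Nat.primeFactors_mono hq'.1 hq'.2))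
  · intro q hq r hr hqr
    have hq' := Nat.mem_divisors.1 (mem_coe.1 hq)
    have hr' := Nat.mem_divisors.1 (mem_coe.1 hr)
    have h1 := Nat.prod_primeFactors_of_squarefree (h.squarefree_of_dvd hq'.1)
    have h2 := Nat.prod_primeFactors_of_squarefree (h.squarefree_of_dvd hr'.1)
    have h3 : q.primeFactors = r.primeFactors := hqr
    rw [← h1, ← h2, h3]

private theorem RwB_term {K Y L E q : ℝ} (hK : 1 ≤ K) (hL : 1 ≤ L) (hY : 0 ≤ Y) (hE : 0 ≤ E) (hq : 0 < q) (h2 : 2 * E * L ≤ Y)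
    (hs : √q < 2 * K * L) : q * (K * Y / √q + E) ≤ 4 * K ^ 2 * Y * L := by
  have hsq : 0 < √q := Real.sqrt_pos.2 hq
  have hqq : q = √q * √q := (Real.mul_self_sqrt hq.le).symm
  have h3 : q * (K * Y / √q + E) = K * Y * √q + q * E := by
    have h4 : q * (K * Y / √q) = K * Y * √q := by
      rw [mul_div_assoc', div_eq_iff hsq.ne']
      calc q * (K * Y) = (√q * √q) * (K * Y) := by rw [← hqq]
        _ = K * Y * √q * √q := by ring
    rw [mul_add, h4]
  rw [h3]
  have h5 : K * Y * √q ≤ K * Y * (2 * K * L) := mul_le_mul_of_nonneg_left hs.le (by positivity)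
  have h6 : q ≤ (2 * K * L) * (2 * K * L) := by
    rw [hqq]
    exact mul_le_mul hs.le hs.le hsq.le (by positivity)
  have h7 : q * E ≤ (2 * K * L) * (2 * K * L) * E := mul_le_mul_of_nonneg_right h6 hE
  have h8 : (2 * K * L) * (2 * K * L) * E = 2 * K ^ 2 * L * (2 * E * L) := by ring
  have h9 : 2 * K ^ 2 * L * (2 * E * L) ≤ 2 * K ^ 2 * L * Y := mul_le_mul_of_nonneg_left h2 (by positivity)
  calc K * Y * √q + q * E ≤ K * Y * (2 * K * L) + 2 * K ^ 2 * L * Y := by
        rw [h8] at h7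
        exact add_le_add h5 (h7.trans h9)
    _ = 4 * K ^ 2 * Y * L := by ring

theorem row (k E Y : ℕ) (L : ℝ) (hk : 1 ≤ k) (hA : Adm k E) (hL : 1 ≤ L) (h2 : 2 * (E : ℝ) * L ≤ Y)
    (hNS : NS k E Y L) (B : Finset ℕ) (hB : ∀ b' ∈ B, b' < E ^ k) (b : ℕ) (t : ℕ)
    (ht : Nat.Coprime t E) :
    ∑ b' ∈ B, ‖∑ y ∈ cop E Y, e ((t : ℝ) * (y : ℝ) ^ k * (((b : ℝ) - (b' : ℝ)) / (E : ℝ) ^ k))‖ ≤
      B.card * ((Y : ℝ) / L) + 4 * (2 * (k : ℝ) ^ 2) ^ om E * Y * L := by
  classical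
  have hE0 : 0 < E := hA.pos
  have hM0 : 0 < E ^ k := pow_pos hE0 k
  have hK : (1 : ℝ) ≤ (k : ℝ) ^ om E := one_le_pow₀ (by exact_mod_cast hk)
  have hYL : (0 : ℝ) ≤ (Y : ℝ) / L := by positivity
  -- the denominators
  obtain ⟨qq, hqq⟩ : ∃ qq : ℕ → ℕ, ∀ b', qq b' = E ^ k / Int.gcd ((b : ℤ) - (b' : ℤ)) ((E ^ k : ℕ) : ℤ) := ⟨_, fun _ => rfl⟩
  have hqM : ∀ b', qq b' ∣ E ^ k := by
    intro b'
    rw [hqq]
    have h3 : Int.gcd ((b : ℤ) - (b' : ℤ)) ((E ^ k : ℕ) : ℤ) ∣ E ^ k := by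
      have h4 := Int.gcd_dvd_right ((b : ℤ) - (b' : ℤ)) ((E ^ k : ℕ) : ℤ)
      exact_mod_cast h4
    exact Nat.div_dvd_of_dvd h3
  let S : Finset ℕ := E.divisors.filter (fun q => √(q : ℝ) < 2 * (k : ℝ) ^ om E * L)
  let W : ℕ → ℝ := fun q => (k : ℝ) ^ om E * Y / √(q : ℝ) + E
  have hW : ∀ q, 0 ≤ W q := fun q => by
    show (0 : ℝ) ≤ (k : ℝ) ^ om E * Y / √(q : ℝ) + E
    positivity
  have hT : ∀ b' ∈ B, ‖∑ y ∈ cop E Y, e ((t : ℝ) * (y : ℝ) ^ k * (((b : ℝ) - (b' : ℝ)) / (E : ℝ) ^ k))‖ ≤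
      (Y : ℝ) / L + if qq b' ∈ S then W (qq b') else 0 := by
    intro b' _
    obtain ⟨n, hn, hs⟩ := reduce k E Y hA t ht ((b : ℤ) - (b' : ℤ))
    have hcast : (((b : ℤ) - (b' : ℤ) : ℤ) : ℝ) = (b : ℝ) - (b' : ℝ) := by push_cast; ring
    rw [hcast] at hs
    rw [hs]
    rw [← hqq b'] at hn ⊢
    have hif : (0 : ℝ) ≤ if qq b' ∈ S then W (qq b') else 0 := by
      split_ifs
      · exact hW _
      · exact le_rfl
    by_cases hsf : Squarefree (qq b')
    · have hqE : qq b' ∣ E := (hsf.dvd_pow_iff_dvd (by omega)).1 (hqM b')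
      have h3 := TS_sqf k E (qq b') Y n hk hA hqE hn
      by_cases hsq : √(qq b' : ℝ) < 2 * (k : ℝ) ^ om E * L
      · have hmem : qq b' ∈ S := mem_filter.2 ⟨Nat.mem_divisors.2 ⟨hqE, hE0.ne'⟩, hsq⟩
        rw [if_pos hmem]
        show ‖TS k n (qq b') E Y‖ ≤ (Y : ℝ) / L + ((k : ℝ) ^ om E * Y / √(qq b' : ℝ) + E)
        linarith
      · push Not at hsq
        have h4 : (k : ℝ) ^ om E * Y / √(qq b' : ℝ) ≤ Y / (2 * L) := by
          have h5 : (0 : ℝ) < 2 * (k : ℝ) ^ om E * L := by positivity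
          calc (k : ℝ) ^ om E * Y / √(qq b' : ℝ) ≤ (k : ℝ) ^ om E * Y / (2 * (k : ℝ) ^ om E * L) :=
                div_le_div_of_nonneg_left (by positivity) h5 hsq
            _ = Y / (2 * L) := by
              field_simp
        have h5 : (E : ℝ) ≤ Y / (2 * L) := by
          rw [le_div_iff₀ (by positivity)]
          calc (E : ℝ) * (2 * L) = 2 * (E : ℝ) * L := by ring
            _ ≤ Y := h2
        have h6 : (Y : ℝ) / (2 * L) + Y / (2 * L) = Y / L := by field_simp; ring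
        linarith
    · have h3 := hNS (qq b') n (hqM b') hn hsf
      linarith
  have hE' : (0 : ℝ) ≤ E := by positivity
  calc ∑ b' ∈ B, ‖∑ y ∈ cop E Y, e ((t : ℝ) * (y : ℝ) ^ k * (((b : ℝ) - (b' : ℝ)) / (E : ℝ) ^ k))‖
      ≤ ∑ b' ∈ B, ((Y : ℝ) / L + if qq b' ∈ S then W (qq b') else 0) := sum_le_sum hT
    _ = B.card * ((Y : ℝ) / L) + ∑ b' ∈ B, (if qq b' ∈ S then W (qq b') else 0) := by
        rw [sum_add_distrib, sum_const, nsmul_eq_mul]
    _ ≤ B.card * ((Y : ℝ) / L) + ∑ b' ∈ range (E ^ k), (if qq b' ∈ S then W (qq b') else 0) := by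
        refine add_le_add le_rfl (sum_le_sum_of_subset_of_nonneg (fun b' hb' => mem_range.2 (hB b' hb')) ?_)
        intro b' _ _
        split_ifs
        · exact hW _
        · exact le_rfl
    _ ≤ B.card * ((Y : ℝ) / L) + 4 * (2 * (k : ℝ) ^ 2) ^ om E * Y * L := by
        refine add_le_add le_rfl ?_
        rw [← sum_filter]
        have hmaps : ∀ b' ∈ (range (E ^ k)).filter (fun b' => qq b' ∈ S), qq b' ∈ S := fun b' hb' => (mem_filter.1 hb').2
        rw [← sum_fiberwise_of_maps_to hmaps]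
        have hin : ∀ q ∈ S, ∑ b' ∈ ((range (E ^ k)).filter (fun b' => qq b' ∈ S)).filter (fun b' => qq b' = q), W (qq b') ≤
            4 * ((k : ℝ) ^ om E) ^ 2 * Y * L := by
          intro q hq
          have hq1 := mem_filter.1 hq
          have hqE : q ∣ E := (Nat.mem_divisors.1 hq1.1).1
          have hq0 : 0 < q := Nat.pos_of_dvd_of_pos hqE hE0
          have hqM' : q ∣ E ^ k := hqE.trans (dvd_pow_self E (by omega))
          have hc : (((range (E ^ k)).filter (fun b' => qq b' ∈ S)).filter (fun b' => qq b' = q)).card ≤ q := by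
            refine (card_le_card ?_).trans (den_count (E ^ k) q hM0 hqM' (b : ℤ))
            intro b' hb'
            have h3 := mem_filter.1 hb'
            have h4 := mem_filter.1 h3.1
            refine mem_filter.2 ⟨h4.1, ?_⟩
            rw [← hqq b']
            exact h3.2
          calc ∑ b' ∈ ((range (E ^ k)).filter (fun b' => qq b' ∈ S)).filter (fun b' => qq b' = q), W (qq b')
              = ∑ b' ∈ ((range (E ^ k)).filter (fun b' => qq b' ∈ S)).filter (fun b' => qq b' = q), W q :=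
                sum_congr rfl fun b' hb' => by rw [(mem_filter.1 hb').2]
            _ = (((range (E ^ k)).filter (fun b' => qq b' ∈ S)).filter (fun b' => qq b' = q)).card * W q := by
                rw [sum_const, nsmul_eq_mul]
            _ ≤ (q : ℝ) * W q := mul_le_mul_of_nonneg_right (by exact_mod_cast hc) (hW q)
            _ ≤ 4 * ((k : ℝ) ^ om E) ^ 2 * Y * L :=
                RwB_term hK hL (by positivity) hE' (by exact_mod_cast hq0) h2 hq1.2
        calc ∑ q ∈ S, ∑ b' ∈ ((range (E ^ k)).filter (fun b' => qq b' ∈ S)).filter (fun b' => qq b' = q), W (qq b')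
            ≤ ∑ q ∈ S, 4 * ((k : ℝ) ^ om E) ^ 2 * Y * L := sum_le_sum hin
          _ = S.card * (4 * ((k : ℝ) ^ om E) ^ 2 * Y * L) := by rw [sum_const, nsmul_eq_mul]
          _ ≤ (2 : ℝ) ^ om E * (4 * ((k : ℝ) ^ om E) ^ 2 * Y * L) := by
              refine mul_le_mul_of_nonneg_right ?_ (by positivity)
              have h3 : S.card ≤ 2 ^ om E := (card_filter_le _ _).trans (RwB_divisors hA.sqf)
              exact_mod_cast h3
          _ = 4 * (2 * (k : ℝ) ^ 2) ^ om E * Y * L := by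
              rw [mul_pow, ← pow_mul, ← pow_mul, mul_comm 2 (om E)]
              ring

end Pool.Agent.Lib.MP_570bef_ntV.OF
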